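import Pool.Agent.MP_6a06cd_co.KM.Spec3

/-! The first five cells of the sweep. -/

namespace Pool.Agent.MP_6a06cd_co.KL

open Finset K

namespace A1

theorem sum_oS (r n : ℕ) (F : ℕ → ℕ → ℤ) :
    ∑ i ∈ range r, oS n (F i) = oS n fun t => ∑ i ∈ range r, F i t := by
  unfold oS
  split_ifs <;> simp

theorem mul_oS (n : ℕ) (a : ℤ) (F : ℕ → ℤ) : a * oS n F = oS n fun t => a * F t := by
  unfold oS
  split_ifs <;> simp

/-- the value at the end slice -/
theorem base (T : STb) (g : ℕ → ℕ) {p I : List ℕ} {k z t : ℕ} (j : ℕ) (hp : p.length = 5)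
    (hc : Cl z p k) (ht : fI g z (cd I) = t + 1) :
    ∑ i ∈ range (r4 g z), (phI g (noc4 (cd I)) * Pz g z t i) * sJ0 g j z i (sc k [] p) =
      oS (kk g k) fun k => lm g (fun s => Mx g k s j) (p ++ I) := by
  obtain ⟨t1, -, -, -, -, -, t7, t8, t9, -⟩ := T
  have h1 : cd p < 2 ^ 25 := by simpa [hp] using (t8 p hc.2.1).1
  have h2 : cd (p ++ I) = cd p + 2 ^ 25 * cd I := by simpa [hp] using (t9 p I).1
  have h3 : sc k [] p = k + 2 ^ 31 * cd p := by simp [sc, cd]
  have hk := hc.1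
  have h4 : zA (cd p / 2 ^ 20 % 32) = z := by
    obtain ⟨-, h5, -, h6⟩ := hc
    match p, hp with
    | [p0, p1, p2, p3, p4], _ =>
      have e : cd [p0, p1, p2, p3, p4] / 2 ^ 20 % 32 = p4 := by
        simp only [List.forall_mem_cons] at h5
        simp only [cd]
        omega
      rw [e, (t1 p4).1]
      exact h6 p4 rfl
  have a1 : sc k [] p % 64 = k := by omega
  have a2 : sc k [] p / 2 ^ 31 = cd p := by omega
  have a3 : sc k [] p / 2 ^ 36 % 32 = cd p / 32 % 32 := by omega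
  have a4 : sc k [] p / 2 ^ 41 = cd p / 1024 := by omega
  have b1 : cd (p ++ I) % 32 = cd p % 32 := by omega
  have b2 : cd (p ++ I) % 1024 = cd p % 1024 := by omega
  have b3 : cd (p ++ I) / 32 % 32 = cd p / 32 % 32 := by omega
  have b4 : cd (p ++ I) / 1024 % 2 ^ 15 = cd p / 1024 := by omega
  have b5 : cd (p ++ I) / 2 ^ 20 % 32 = cd p / 2 ^ 20 % 32 := by omega
  have b6 : cd (p ++ I) / 2 ^ 25 = cd I := by omega
  have b7 : noc5 (cd (p ++ I)) = noc5 (cd p) := by
    rw [← (t7 _).2.2, show cd (p ++ I) % 2 ^ 25 = cd p by omega]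
  simp only [sJ0, lm, ph, lh, a1, a2, a3, a4, b1, b2, b3, b4, b5, b6, b7, h4, ht, mul_oS]
  simp only [sum_oS]
  refine congrArg (oS _) (funext fun k => congrArg (oS _) (funext fun t2 =>
    congrArg (oS _) (funext fun t1 => ?_)))
  rw [oS, if_neg t.succ_ne_zero, Nat.add_sub_cancel, sT, mul_sum]
  refine sum_congr rfl fun i _ => ?_
  push_cast
  ring

end A1

theorem rowA1 : OfA1 := by
  intro _ T hL hS g x Bd a r L hx R hW ha hB cs b5 u c I k hc hc' hcd hI _ hk
  have h3 : sc k [] I = k + 2 ^ 31 * cd I := by simp [sc, cd]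
  have a1 : sc k [] I % 64 = k := by omega
  have a2 : sc k [] I / 2 ^ 31 = cd I := by omega
  have a3 : sc k (c ++ []) [] = k + 64 * cl g cs b5 u := by simp [sc, cd, hcd]
  simp only [sI0, a1, a2]
  rcases ht : fI g (zK k) (cd I) with _ | t
  · simpa [oS] using R.zero 5 I k (c ++ a) _ (pow_pos hx _).le
  have h := (hS x Bd R (fun s => ∑ q ∈ range r ×ˢ range (r4 g (zK k)),
      L q.1 * (phI g (noc4 (cd I)) * Pz g (zK k) t q.2) * (sJ0 g q.1 (zK k) q.2 s : ℝ))
    (zK k) 0 I a _ (pow_pos hx (nocc a)).le).2 5 [] ha le_rfl (by norm_num) (fun p k' hp hcl => by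
      refine R.mono _ _ _ _ _ _ _ (le_of_eq ?_) (hB (p ++ I) k' (by simp [hp, hI]) hcl.1)
      rw [sum_product]
      refine sum_congr rfl fun j _ => ?_
      rw [← A1.base T g j hp hcl ht]
      push_cast
      rw [mul_sum]
      exact sum_congr rfl fun i _ => mul_assoc _ _ _) c [] k (by simp [hc])
    ⟨hk, by simp, fun _ => (T.2.2.2.2.1 k hk).1.symm, by simp⟩
  rw [(hL.2.1 _ _ _ fun q : ℕ × ℕ => sJ0 g q.1 (zK k) q.2).2, a3, hc, List.append_nil] at h
  obtain ⟨-, -, -, -, -, -, t7, t8, t9, -⟩ := T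
  have e : noc5 (cl g cs b5 u) = nocc c := hcd ▸ (t8 c hc').2.2 hc
  refine R.mono _ _ _ _ _ _ _ (le_of_eq ?_) (R.scale _ _ _ _ _ _
    (wJ g (noc5 (cl g cs b5 u)) / 2 ^ 20) _ (by positivity) ?_ h)
  · rw [sum_product, mul_sum]
    refine sum_congr rfl fun j _ => ?_
    rw [oS, if_neg t.succ_ne_zero, Nat.add_sub_cancel]
    simp only [sD]
    push_cast
    simp only [mul_sum]
    exact sum_congr rfl fun i _ => by ring
  · rw [(t9 c a).2, pow_add, ← e]
    refine mul_le_mul_of_nonneg_right ?_ (pow_pos hx _).le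
    rw [div_le_iff₀' (by positivity)]
    exact (hW.1 _ (t7 _).2.1).1

end Pool.Agent.MP_6a06cd_co.KL
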