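import Pool.Agent.MP_6a06cd_co.KM.Spec3

/-! Row A2: from the four cells before the turn of the row to the four cells after it. -/

namespace Pool.Agent.MP_6a06cd_co.KL

open Finset K

namespace A2

theorem sc_nil_right (k : ℕ) (q : List ℕ) : sc k q [] = k + 64 * cd q := by
  simp only [sc, cd, Nat.mul_zero, Nat.add_zero]

theorem sc_nil_left (k : ℕ) (p : List ℕ) : sc k [] p = k + 2 ^ 31 * cd p := by
  simp only [sc, cd, Nat.mul_zero, Nat.add_zero]

theorem sc_mod (k : ℕ) (p : List ℕ) (hk : k < 35) : sc k [] p % 64 = k := by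
  rw [sc_nil_left]; omega

theorem sc_div (k : ℕ) (p : List ℕ) (hk : k < 35) : sc k [] p / 2 ^ 31 = cd p := by
  rw [sc_nil_left]; omega

theorem cl_nil (k : ℕ) (hk : k < 35) : Cl (kZ k) [] k :=
  ⟨hk, by simp, fun _ => rfl, by simp⟩

/-- the value at the end of the row -/
theorem inner (hT : STb) (hL : SLin) (hS : SSw) (g : ℕ → ℕ) (x : ℝ)
    (Bd : ℕ → List ℕ → ℕ → List ℕ → ℝ → ℝ → Prop) (a : List ℕ) (r : ℕ) (L : ℕ → ℝ) (hx : 0 < x)
    (hR : Rules x Bd) (hW : OkW g x) (h1 : H1 g x Bd a r L) (cs b5 u : ℕ) (c : List ℕ) (hc : c.length = 5)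
    (hc' : ∀ y ∈ c, y ≤ 20) (hcd : cd c = cl g cs b5 u) (k : ℕ) (w : List ℕ) (hk : k < 35) (hw : w.length = 4)
    (hw' : ∀ y ∈ w, y ≤ 20) :
    Bd 9 (w ++ (c ++ a)) k [] 1 (∑ j ∈ range r, L j / 2 ^ 39 * ((sU0 g cs j b5 u (sc k [] w) : ℤ) : ℝ)) := by
  obtain ⟨-, -, -, -, -, htK, hn4, hcw, happ, -⟩ := hT
  by_cases ht : tn k < 35
  · have hU : ∀ j, sU0 g cs j b5 u (sc k [] w) =
        (wI g (nocc w) : ℤ) * swS (sI0 g cs j b5 u) 4 (sc (tn k) w []) := by
      intro j
      unfold sU0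
      rw [sc_mod k w hk, sc_div k w hk, htK k, if_pos ht, ((hcw w hw').2.1 hw), sc_nil_right]
      unfold oS
      rw [if_neg (Nat.succ_ne_zero _), Nat.add_sub_cancel]
    have hne : ([] : List ℕ) ++ (c ++ a) ≠ [] := by
      intro h
      have := congrArg List.length h
      simp only [List.nil_append, List.length_append, List.length_nil] at this
      omega
    have hκ : 0 ≤ x ^ nocc (c ++ a) := (pow_pos hx _).le
    have key := (hS x Bd hR (fun s => ∑ j ∈ range r, L j / 2 ^ 20 * ((sI0 g cs j b5 u s : ℤ) : ℝ))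
      (kZ (tn k)) 5 [] (c ++ a) (x ^ nocc (c ++ a)) hκ).2 4 [] hne (by simp) (by norm_num)
      (fun p k' hp hcl => by
        rw [List.append_nil, List.nil_append]
        exact h1 cs b5 u c p k' hc hc' hcd hp hcl.2.1 hcl.1)
      w [] (tn k) (by simp [hw]) (cl_nil _ ht)
    rw [hw, List.append_nil, List.append_nil,
      (hL.2.1 ℕ (range r) (fun j => L j / 2 ^ 20) (fun j => sI0 g cs j b5 u)).2] at key
    have hn : nocc w ≤ 4 := by
      rw [← (hcw w hw').2.1 hw]; exact (hn4 _).1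
    have hwI := (hW.2 _ hn).1
    have hsc := hR.scale _ _ _ _ _ (1 * x ^ nocc (w ++ (c ++ a))) ((wI g (nocc w) : ℝ) / 2 ^ 19) _
      (by positivity)
      (by
        rw [(happ w (c ++ a)).2, pow_add, one_mul]
        refine mul_le_mul_of_nonneg_right ?_ hκ
        rw [div_le_iff₀ (by positivity)]
        linarith) key
    refine hR.turn _ _ _ _ _ ht (hR.mono _ _ _ _ _ _ _ (le_of_eq ?_) hsc)
    rw [Finset.mul_sum]
    refine Finset.sum_congr rfl fun j _ => ?_
    rw [hU j]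
    push_cast
    ring
  · have hU : ∀ j, sU0 g cs j b5 u (sc k [] w) = 0 := by
      intro j
      unfold sU0
      rw [sc_mod k w hk, htK k, if_neg ht]
      unfold oS
      rw [if_pos rfl]
    refine hR.mono _ _ _ _ _ _ _ (le_of_eq ?_) (hR.zero 9 _ k [] 1 zero_le_one)
    refine Finset.sum_eq_zero fun j _ => ?_
    rw [hU j, Int.cast_zero, mul_zero]

end A2

theorem rowA2 : OfA2 := by
  intro _ hT hL hS g x Bd a r L hx hR hW h1 cs b5 u c I k z t hc hc' hcd hI hId hk
  obtain ⟨q, l, rfl⟩ : ∃ q l, I = q ++ [l] := by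
    have hne : I ≠ [] := by
      intro h
      rw [h] at hI
      simp at hI
    exact ⟨I.dropLast, I.getLast hne, (List.dropLast_append_getLast hne).symm⟩
  have hq : q.length = 3 := by
    simp only [List.length_append, List.length_singleton] at hI
    omega
  have hF : stS true (fun s => ∑ j ∈ range r, L j / 2 ^ 39 * ((sU0 g cs j b5 u s : ℤ) : ℝ)) =
      fun s => ∑ j ∈ range r, L j / 2 ^ 39 * ((stS true (sU0 g cs j b5 u) s : ℤ) : ℝ) := by
    funext s
    exact (hL.2.1 ℕ (range r) (fun j => L j / 2 ^ 39) (fun j => sU0 g cs j b5 u)).1 true s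
  have key := (hS x Bd hR
    (stS true (fun s => ∑ j ∈ range r, L j / 2 ^ 39 * ((sU0 g cs j b5 u s : ℤ) : ℝ)))
    (kZ k) 10 (c ++ a) [] 1 zero_le_one).2 3 [l] (by simp) (by simp) (by norm_num)
    (fun p k1 hp hcl => by
      have := (hS x Bd hR (fun s => ∑ j ∈ range r, L j / 2 ^ 39 * ((sU0 g cs j b5 u s : ℤ) : ℝ))
        (kZ k) 9 (c ++ a) [] 1 zero_le_one).1 l [] p k1 (by norm_num) (by simp) hcl
        (fun y k' hcl' => A2.inner hT hL hS g x Bd a r L hx hR hW h1 cs b5 u c hc hc' hcd k' (y :: p) hcl'.1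
          (by simp [hp]) hcl'.2.1)
      exact this)
    q [] k (by simp [hq]) (A2.cl_nil k hk)
  rw [hq, List.nil_append, List.append_nil, hF,
    (hL.2.1 ℕ (range r) (fun j => L j / 2 ^ 39) (fun j => stS true (sU0 g cs j b5 u))).2,
    A2.sc_nil_right, hId] at key
  exact key

end Pool.Agent.MP_6a06cd_co.KL
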