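import Pool.Agent.MP_6a06cd_co.KM.Spec3

/-! Row A3: the last five steps of the sweep. -/

namespace Pool.Agent.MP_6a06cd_co.KL

open Finset K

theorem rowA3 : OfA3 := by
  intro hB _ hL hS g x Bd a r L hR h2 cs J I k z t hJ hI hc hk
  have h := (hS x Bd hR (fun s => ∑ j ∈ range r, L j / 2 ^ 39 * ((sV0 g cs j z t s : ℤ) : ℝ))
    (kZ k) 13 a I 1 zero_le_one).2 5 [] (by rintro rfl; simp at hI) le_rfl le_rfl
    (fun p k' hp hcl => by
      have k0 := hcl.1
      have e1 : sc k' [] p % 64 = k' := by simp only [sc, cd]; omega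
      have e2 : sc k' [] p / 2 ^ 31 = cd p := by simp only [sc, cd]; omega
      simp only [sV0, e1, e2, List.nil_append]
      rcases hB.2.2.2.2.2.2.2.2.2.2.1 25 (g (a2 8 (bZ (zK k')) cs)) (nC g cs (bZ (zK k'))) (cd p)
        with e | ⟨u, -, e, e'⟩
      · have e0 : fC g cs (bZ (zK k')) (cd p) = 0 := e
        simpa [e0, oS] using hR.zero 13 (p ++ a) k' I 1 zero_le_one
      · have e0 : fC g cs (bZ (zK k')) (cd p) = u + 1 := e
        simpa only [e0, oS, Nat.succ_ne_zero, if_false, Nat.add_sub_cancel] using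
          h2 cs _ u p I k' z t hp hcl.2.1 e'.symm hI hc k0)
    J [] k (by simpa using hJ) ⟨hk, by simp, fun _ => rfl, by simp⟩
  rw [(hL.2.1 ℕ (range r) (fun j => L j / 2 ^ 39) fun j => sV0 g cs j z t).2] at h
  simpa only [hJ, List.append_nil, List.nil_append, sc, cd, mul_zero, add_zero, sV] using h

end Pool.Agent.MP_6a06cd_co.KL
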