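import Pool.Agent.MP_6a06cd_co.KM.Spec3

/-! One state of the start slice. -/

namespace Pool.Agent.MP_6a06cd_co.KL

open Finset K

namespace A4

/-- Decoding of the three lookups. -/
theorem dec (hB : SBas) (g : ℕ → ℕ) (c : ℕ) : (∀ m, lh g m c = 0) ∨ ∃ t2 t1 t y z : ℕ,
    t2 < n2 g (bA (c % 32)) ∧ y = zA (j2 g (bA (c % 32)) t2 / 32) ∧ t1 < n1 g y ∧
    c % 2 ^ 25 = jw g y (bA (c % 32)) t2 t1 ∧ z = zA (c % 2 ^ 25 / 2 ^ 20) ∧ t < nI g z ∧
    c / 2 ^ 25 = il g z t ∧ ∀ m, lh g m c = sT g m (fun _ => 1) 1 z y (bA (c % 32)) t2 t1 t := by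
  obtain ⟨-, -, -, -, -, -, -, -, -, -, hf, -, -, hj⟩ := hB
  have a2 : ∀ b c, f2 g b c = 0 ∨ ∃ p, p < n2 g b ∧ f2 g b c = p + 1 ∧ j2 g b p = c :=
    fun b c => hf _ _ _ _
  have a1 : ∀ b c, f1 g b c = 0 ∨ ∃ p, p < n1 g b ∧ f1 g b c = p + 1 ∧ j1 g b p = c :=
    fun b c => hf _ _ _ _
  have a0 : ∀ b c, fI g b c = 0 ∨ ∃ p, p < nI g b ∧ fI g b c = p + 1 ∧ il g b p = c :=
    fun b c => hf _ _ _ _
  have o0 : ∀ F, oS 0 F = 0 := fun _ => if_pos rfl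
  have os : ∀ n F, oS (n + 1) F = F n := fun n _ => if_neg (Nat.succ_ne_zero n)
  rcases a2 (bA (c % 32)) (c % 1024) with h | ⟨t2, p1, p2, p3⟩
  · exact Or.inl fun m => by rw [lh, h, o0]
  rcases a1 (zA (c / 32 % 32)) (c / 1024 % 2 ^ 15) with h | ⟨t1, q1, q2, q3⟩
  · exact Or.inl fun m => by rw [lh, p2, os, h, o0]
  rcases a0 (zA (c / 2 ^ 20 % 32)) (c / 2 ^ 25) with h | ⟨t, r1, r2, r3⟩
  · exact Or.inl fun m => by rw [lh, p2, os, q2, os, h, o0]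
  refine Or.inr ⟨t2, t1, t, _, _, p1, ?_, q1, ?_, ?_, r1, r3.symm, fun m => by
    rw [lh, p2, os, q2, os, r2, os]⟩
  · rw [p3]
    exact congrArg zA (by omega)
  · rw [(hj _ _ _ _ _).1, p3, q3]
    omega
  · exact congrArg zA (by omega)

theorem head (hT : STb) {w : List ℕ} {β : ℕ} (h : Shape w β) (hw : w.length = 9) :
    bA (cd w % 32) = β ∧ β < 6 := by
  obtain ⟨-, h2, -, -, -, -, -, -, -, h10⟩ := hT
  cases w with
  | nil => simp at hw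
  | cons c w =>
    have h1 := (h10 _ _ h).1 c List.mem_cons_self
    have : cd (c :: w) % 32 = c := by
      rw [cd]
      omega
    rw [this, h2 c h1]
    exact ⟨h.1, h.2.1⟩

theorem lm_nonneg (hB : SBas) {g : ℕ → ℕ} {w : List ℕ} {j : ℕ} (h : OkA g j (bA (cd w % 32))) :
    0 ≤ lm g (dl j) w := by
  refine mul_nonneg (mul_nonneg (Nat.cast_nonneg _) (Nat.cast_nonneg _)) ?_
  rcases dec hB g (cd w) with h0 | ⟨t2, t1, t, y, z, e1, e2, e3, e4, e5, e6, -, e8⟩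
  · rw [h0]
  · rw [e8]
    simpa using h t2 t1 t y _ z e1 e2 e3 e4 e5 e6

end A4

open A4 in
theorem rowA4 : OfA4 := by
  intro hB hT hL hN g x Ω Bd a k b cs hx hΩ R hW ha hA hK h3
  by_cases hs : k < 35 ∧ a.length + b.length = 18 ∧ Shape a (rB (kZ k)) ∧ Shape b (kB k)
  swap
  · exact R.vac _ _ _ _ _ _ hs
  obtain ⟨hk, hl, sa, sb⟩ := hs
  have hb : b.length = 9 := by omega
  obtain ⟨ea, la⟩ := head hT sa ha
  obtain ⟨eb, -⟩ := head hT sb hb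
  obtain ⟨-, -, -, -, t5, -, t7, t8, t9, t10⟩ := hT
  obtain ⟨-, -, -, l4, l5⟩ := hL
  obtain ⟨J, I, rfl, hJ⟩ : ∃ J I : List ℕ, b = J ++ I ∧ J.length = 5 :=
    ⟨b.take 5, b.drop 5, (List.take_append_drop 5 b).symm, by rw [List.length_take]; omega⟩
  have hI : I.length = 4 := by
    rw [List.length_append] at hb
    omega
  have hm := (t10 _ _ sb).1
  obtain ⟨cJ, -, nJ⟩ := t8 J fun y hy => hm y (List.mem_append_left _ hy)
  obtain ⟨-, nI', -⟩ := t8 I fun y hy => hm y (List.mem_append_right _ hy)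
  obtain ⟨c1, c2⟩ := t9 J I
  rw [hJ] at cJ c1
  have m1 : cd (J ++ I) % 2 ^ 25 = cd J := by omega
  have m2 : cd (J ++ I) / 2 ^ 25 = cd I := by omega
  rw [l4]
  rcases dec hB g (cd (J ++ I)) with h0 | ⟨t2, t1, t, y, z, e1, e2, e3, e4, e5, e6, e7, e8⟩
  · simp only [lm, h0, mul_zero, sum_const_zero, Int.cast_zero, zero_div]
    exact R.zero _ _ _ _ _ (by positivity)
  rw [eb, ← (t5 k hk).2.1] at e1 e2 e4 e8
  rw [m1] at e4 e5
  rw [m2] at e7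
  have p1 : ph g (cd (J ++ I)) = (phI g (nocc I) : ℤ) * phJ g (nocc J) := by
    rw [ph, m2, ← (t7 _).2.2, m1, nJ hJ, nI' hI]
  obtain ⟨-, -, u1, -, -, -⟩ := (hN g).2.2.2.2.2.2.1 (nocc I)
  obtain ⟨-, -, -, u2, -, -⟩ := (hN g).2.2.2.2.2.2.1 (nocc J)
  have v1 : (0 : ℝ) < psI g (nocc I) := by exact_mod_cast u1
  have v2 : (0 : ℝ) < psJ g (nocc J) := by exact_mod_cast u2
  have w1 := (hW.2 (nocc I) (hI ▸ List.countP_le_length)).2
  have w2 := (hW.1 (nocc J) (hJ ▸ List.countP_le_length)).2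
  refine R.mono _ _ _ _ _ _ _ ?_ (R.scale _ _ _ _ _ _
    (2 ^ 39 * ((phI g (nocc I) : ℝ) * phJ g (nocc J)) / (psI g (nocc I) * psJ g (nocc J))) _
    (by positivity) ?_ (h3 cs J I k z t hJ hI e7 hk))
  · rw [Int.cast_sum, sum_div, mul_sum]
    refine sum_le_sum fun j hj => ?_
    rw [mem_range] at hj
    have q1 : (0 : ℝ) ≤ lm g (dl j) a := by
      exact_mod_cast lm_nonneg hB (hA _ j (ea ▸ la) hj)
    have q2 := hK j (ea ▸ hj) t2 t1 t y _ z e1 e2 e3 e4 e5 e6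
    rw [l5, ← e8, ← e7, nJ hJ, nI' hI] at q2
    have q3 : (psI g (nocc I) : ℝ) * psJ g (nocc J) *
        (lh g (fun s => Mx g k j s) (cd (J ++ I)) : ℤ) ≤ (sV g cs j k z (cd J) t : ℤ) := by
      exact_mod_cast sub_nonneg.1 (q2.trans_eq (sub_eq_add_neg _ _).symm)
    have q4 : ((lh g (fun s => Mx g k j s) (cd (J ++ I)) : ℤ) : ℝ) ≤
        (sV g cs j k z (cd J) t : ℤ) / (psI g (nocc I) * psJ g (nocc J)) := by
      rwa [le_div_iff₀' (by positivity)]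
    rw [lm.eq_1 g _ (J ++ I), p1]
    push_cast
    calc _ = (lm g (dl j) a : ℝ) / Ω * (phI g (nocc I) * phJ g (nocc J)) *
          (lh g (fun s => Mx g k j s) (cd (J ++ I)) : ℤ) := by ring
      _ ≤ (lm g (dl j) a : ℝ) / Ω * (phI g (nocc I) * phJ g (nocc J)) *
          ((sV g cs j k z (cd J) t : ℤ) / (psI g (nocc I) * psJ g (nocc J))) :=
        mul_le_mul_of_nonneg_left q4 (by positivity)
      _ = _ := by field_simp
  · rw [mul_one, div_le_iff₀ (by positivity), c2, pow_add]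
    calc _ = 2 ^ 19 * (phI g (nocc I) : ℝ) * (2 ^ 20 * phJ g (nocc J)) := by ring
      _ ≤ psI g (nocc I) * x ^ nocc I * (psJ g (nocc J) * x ^ nocc J) :=
        mul_le_mul w1 w2 (by positivity) (by positivity)
      _ = _ := by ring

end Pool.Agent.MP_6a06cd_co.KL
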