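import Pool.Agent.MP_6a06cd_co.KM.Spec3

/-! The integer inequalities give the certificate. -/

namespace Pool.Agent.MP_6a06cd_co.KL

open Finset K

theorem rowA5 : OfA5 := by
  intro hBas _ hBnd h1 h2 h3 h4 g x Ω s hx hΩ hW hA hK h4f h5 hs
  have hk : ∀ k, kk g k = 0 ∨ (kk g k = k + 1 ∧ k ≠ 4 ∧ flg g k = 1) :=
    hBas.2.2.2.2.2.2.2.2.2.2.2.1 g
  obtain ⟨M, hM⟩ := (hBnd g).2.2.2.2.2.1
  refine ⟨⟨max 0 (M / Ω), fun a k b => ?_⟩, fun a b => ?_, ?_, fun Bd hR hb => ?_⟩
  · unfold gC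
    split_ifs
    · exact le_max_left _ _
    · exact le_max_of_le_right (div_le_div_of_nonneg_right (Int.cast_le.2 (hM a k b)) hΩ.le)
  · rcases hk 4 with e | e
    · rw [gC, if_pos e]
    · exact absurd rfl e.2.1
  · unfold gC
    split_ifs
    · exact zero_le_one
    · exact (div_le_one hΩ).2 h5
  have key : ∀ (a : List ℕ) (k : ℕ) (b : List ℕ), a.length = 9 → k < 35 → flg g k = 1 →
      Bd 18 a k b (x ^ nocc b) (gI g a k b / Ω) := fun a k b ha hk35 hf => by
    obtain ⟨cs, hcs⟩ := hK k hk35 hf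
    refine h4 g x Ω Bd a k b cs hx hΩ hR hW ha hA hcs (h3 _ _ _ _ _ _ hR (h2 _ _ _ _ _ _ hx hR hW
      (h1 _ _ _ _ _ _ hx hR hW (fun e => by simp [e] at ha) fun p k' hp _ => ?_)))
    refine hR.mono _ _ _ _ _ _ _ (le_of_eq ?_) (hb p k' a hp)
    rcases hk k' with e | e
    · simp [gC, oS, e]
    · simp only [gC, oS, e.1, Nat.add_one_ne_zero, if_false, Nat.add_sub_cancel, gI]
      push_cast
      rw [sum_div]
      exact sum_congr rfl fun j _ => by ring
  refine ⟨fun a k b ha _ => ?_, ?_⟩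
  · by_cases h35 : k < 35
    · rcases hk k with e | e
      · rw [gC, if_pos e]
        exact hR.zero _ _ _ _ _ (pow_pos hx _).le
      · rw [gC, if_neg (by rw [e.1]; exact Nat.add_one_ne_zero _)]
        exact key a k b ha h35 e.2.2
    · exact hR.vac _ _ _ _ _ _ fun h => h35 h.1
  · have := key (List.replicate 9 19) 4 (List.replicate 9 19) rfl (by norm_num) h4f
    rw [show nocc (List.replicate 9 19) = 0 by decide, pow_zero] at this
    exact hR.mono _ _ _ _ _ _ _ hs this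

end Pool.Agent.MP_6a06cd_co.KL
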