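import Pool.Agent.MP_6a06cd_co.KM.Spec3

/-! Row B12: the two inner contractions of the packed checker. -/

namespace Pool.Agent.MP_6a06cd_co.KL

open Finset K

namespace B12

theorem pc_lt (hB : SBas) (W Y p : ℕ) : pc W Y p < 2 ^ W := by
  rw [hB.2.1]
  exact Nat.mod_lt _ (by positivity)

theorem okw (hB : SBas) {g : ℕ → ℕ} {S n W : ℕ} (h : okW g S n W = true) :
    W = S * n ∧ (∀ z, b1 g * (r4 g z + 1) ≤ W) ∧ ∀ y, y < 16 → b2 g * (r7 g y + 1) ≤ W := by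
  unfold okW at h
  rw [Bool.and_eq_true, Bool.and_eq_true, Nat.beq_eq, Nat.ble_eq, Nat.beq_eq,
    hB.2.2.2.2.2.1] at h
  obtain ⟨⟨h1, h2⟩, h3⟩ := h
  refine ⟨h1, fun z => ?_, fun y hy => ?_⟩
  · have h4 : r4 g z < 2 ^ 5 := pc_lt hB _ _ _
    have h5 : 32 * b1 g ≤ W := h2
    calc b1 g * (r4 g z + 1) ≤ b1 g * 32 := Nat.mul_le_mul_left _ h4
      _ ≤ W := by omega
  · have h4 : (r7 g y + 1) * b2 g - W = 0 := sum_eq_zero_iff.1 h3 y (mem_range.2 hy)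
    rw [mul_comm]
    omega

theorem rows (hB : SBas) (S n e : ℕ) (x : ℕ → ℕ) (v : ℕ → ℤ) (h : ∀ t, (x t : ℤ) = v t + 2 ^ e) :
    (sm (fun t => Nat.shiftLeft (x t) (Nat.mul S t)) n : ℤ) = pk S n v + 2 ^ e * o1 S n := by
  rw [hB.2.2.2.2.2.1, o1, pk, pk, mul_sum, ← sum_add_distrib, Nat.cast_sum]
  refine sum_congr rfl fun t _ => ?_
  have e1 : Nat.shiftLeft (x t) (Nat.mul S t) = x t * 2 ^ (S * t) := Nat.shiftLeft_eq _ _
  rw [e1]
  push_cast
  rw [h t]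
  ring

theorem kr2 (hq : SRq) {S n m e r : ℕ} (hS : 1 ≤ S) {U u : ℕ → ℕ} {A : ℕ → ℕ → ℤ}
    {y : ℕ → ℕ → ℤ} (hU : ∀ s, s < r → Rq (S * n) m (U s) (A s))
    (hu : ∀ s, s < r → (u s : ℤ) = pk S n (y s) + 2 ^ e * o1 S n) :
    Rp S n m (krc (S * n * m) (bo S n e) U u r) fun i t => ∑ s ∈ range r, A s i * y s t := by
  obtain ⟨-, -, -, q4, -, q6, q7, -, -, -, -, -, q13⟩ := hq
  refine q4 _ _ _ _ _ (fun i _ => q13 S n r (fun s => A s i) y)
    (q6 (S * n) m (bo S n e) r U u A (fun s => pk S n (y s)) hU fun s hs => ?_)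
  rw [hu s hs, q7 S n e hS]

end B12

open B12 in
theorem rowB12 : OfB12 := by
  intro hB hq hD hS hN g S n W
  obtain ⟨n1, n2, -, -, -, -, -, -, -, -, -, p1, p2, pM⟩ := hN g
  refine ⟨okw hB, fun c0 k => ⟨fun s => ?_, fun t s => n1 _ _ _⟩,
    fun c0 k => ⟨fun s => ?_, fun t s => ?_⟩, fun c0 => ⟨fun s => ?_, fun t s => ?_⟩, ?_⟩
  · exact rows hB S n _ (fun t => mx g k s (c0 + t)) _ fun t => by simp [Mx]
  · refine rows hB S n _ (fun t => pw (bM g) - mx g k (c0 + t) s) _ fun t => ?_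
    have h1 : mx g k (c0 + t) s < 2 ^ bM g := pc_lt hB _ _ _
    simp only [Mx]
    rw [(hB.1 _).1, Nat.cast_sub h1.le, pM]
    push_cast
    ring
  · rw [abs_neg]
    exact n1 _ _ _
  · refine rows hB S n _ (fun t => cond (Nat.beq s (c0 + t)) 2 1) _ fun t => ?_
    simp only [dl]
    by_cases h : s = c0 + t
    · have h1 : Nat.beq s (c0 + t) = true := Nat.beq_eq ▸ h
      rw [h1, if_pos h]
      rfl
    · have h1 : Nat.beq s (c0 + t) = false := by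
        rw [← Bool.not_eq_true, Nat.beq_eq]
        exact h
      rw [h1, if_neg h]
      rfl
  · simp only [dl]
    split_ifs <;> simp
  · intro u e m z y b t2 t1 hok hu he hy
    obtain ⟨rfl, w1, w2⟩ := okw hB hok
    have hS1 : 1 ≤ S := by omega
    have h1 : Rp S n (r7 g y)
        (krc (S * n * r7 g y) (bo S n e) (U2 g (S * n) y b t2) u (r9 g b))
        fun i t => sB2 g (m t) y b t2 i :=
      kr2 hq hS1 (A := fun s => Q2 g y b t2 s) (y := fun s t => m t s)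
        (fun s _ => hS _ _ _ _ p2 (w2 y hy) (pc_lt hB _ _ _)) fun s _ => hu.1 s
    have h2 := hD.1 S n (r7 g y) (e2 g e) _ _ h1
      (fun i t _ _ => (n2 (m t) e (hu.2 t)).1 y b t2 i) he
    exact kr2 hq hS1 (A := fun s => Q1 g z y t1 s) (y := fun s t => sB2 g (m t) y b t2 s)
      (fun s _ => hS _ _ _ _ p1 (w1 z) (pc_lt hB _ _ _)) h2

end Pool.Agent.MP_6a06cd_co.KL
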