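import Pool.Agent.MP_6a06cd_co.KM.Spec3

/-! The basic functions of the packed checker in plain form. -/

namespace Pool.Agent.MP_6a06cd_co.KL

open Finset K

namespace Bas

theorem pw_eq (e : ℕ) : pw e = 2 ^ e := by
  show 1 <<< e = _
  rw [Nat.shiftLeft_eq, one_mul]

theorem mk_eq (e : ℕ) : K.mk e = 2 ^ e - 1 := by
  show pw e - 1 = _
  rw [pw_eq]

theorem pc_eq (W Y p : ℕ) : pc W Y p = Y / 2 ^ (W * p) % 2 ^ W := by
  show (Y >>> (W * p)) &&& K.mk W = _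
  rw [mk_eq, Nat.and_two_pow_sub_one_eq_mod, Nat.shiftRight_eq_div_pow]

theorem pc_lt (W Y p : ℕ) : pc W Y p < 2 ^ W := by
  rw [pc_eq]
  exact Nat.mod_lt _ (by positivity)

theorem sm_eq (U : ℕ → ℕ) (r : ℕ) : sm U r = ∑ s ∈ range r, U s := by
  induction r with
  | zero => rfl
  | succ r ih => rw [sum_range_succ, ← ih]; rfl

theorem kr_eq (U u : ℕ → ℕ) (r : ℕ) : kr U u r = ∑ s ∈ range r, U s * u s := by
  induction r with
  | zero => rfl
  | succ r ih => rw [sum_range_succ, ← ih]; rfl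

theorem ones_eq (W m : ℕ) (h : 1 ≤ W) : ones W m = ∑ i ∈ range m, 2 ^ (W * i) := by
  show K.mk (W * m) / K.mk W = _
  rw [mk_eq, mk_eq, pow_mul, ← Nat.geomSum_eq (Nat.succ_le_of_lt (Nat.one_lt_two_pow (by omega)))]
  simp only [pow_mul]

theorem fnd_aux (b L m c p : ℕ) :
    cond (Nat.ble m p) 0 (cond (Nat.beq (pc b L p) c) (p + 1) 0) = 0 ∨
      p < m ∧ cond (Nat.ble m p) 0 (cond (Nat.beq (pc b L p) c) (p + 1) 0) = p + 1 ∧
        pc b L p = c := by
  cases h1 : Nat.ble m p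
  · cases h2 : Nat.beq (pc b L p) c
    · exact Or.inl rfl
    · exact Or.inr ⟨Nat.lt_of_not_le (Nat.not_le_of_not_ble_eq_true (by simp [h1])), rfl,
        Nat.eq_of_beq_eq_true h2⟩
  · exact Or.inl rfl

theorem kk_eq (g : ℕ → ℕ) (k : ℕ) : kk g k = if k = 4 then 0 else flg g k * (k + 1) := by
  show cond (Nat.beq k 4) 0 (flg g k * (k + 1)) = _
  split_ifs with h
  · rw [h]; rfl
  · cases h2 : Nat.beq k 4
    · rfl
    · exact absurd (Nat.eq_of_beq_eq_true h2) h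

end Bas

open Bas in
theorem rowBas : SBas := by
  refine ⟨fun e => ⟨pw_eq e, mk_eq e⟩, pc_eq, fun _ _ _ _ => rfl, fun _ _ => rfl, fun n k => ?_,
    sm_eq, kr_eq, ones_eq, fun s => ⟨?_, Nat.shiftRight_eq_div_pow s 31⟩, fun k q => ?_,
    fun b L m c => ?_, fun g k => ?_, fun g k h1 h2 => ?_,
    fun g y b t2 t1 => ⟨?_, pc_lt 10 _ _, pc_lt 15 _ _⟩⟩
  · cases n <;> rfl
  · exact Nat.and_two_pow_sub_one_eq_mod s 6
  · show k + q <<< 6 = _
    rw [Nat.shiftLeft_eq, mul_comm]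
  · exact (fnd_aux b L m c _).imp id fun h => ⟨_, h⟩
  · have h : flg g k < 2 := pc_lt 1 _ _
    rw [kk_eq]
    split_ifs with e
    · exact Or.inl rfl
    · rcases Nat.lt_or_ge (flg g k) 1 with h1 | h1
      · exact Or.inl (by rw [Nat.lt_one_iff.1 h1, zero_mul])
      · have h2 : flg g k = 1 := by omega
        exact Or.inr ⟨by rw [h2, one_mul], e, h2⟩
  · rw [kk_eq, if_neg h1, h2, one_mul]
  · show j2 g b t2 + j1 g y t1 <<< 10 = _
    rw [Nat.shiftLeft_eq, mul_comm]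

end Pool.Agent.MP_6a06cd_co.KL
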