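import Pool.Agent.MP_6a06cd_co.KM.Spec3

/-! Row Cat: the concatenation of slots. -/

namespace Pool.Agent.MP_6a06cd_co.KL

open Finset K

namespace Cat

theorem c8_eq (W W2 W4 : ℕ) (f : ℕ → ℕ) (d lo : ℕ) (h2 : W2 = 2 * W) (h4 : W4 = 4 * W) :
    c8 W W2 W4 f d lo = ∑ c ∈ range 8, f (lo + c * d) * 2 ^ (W * c) := by
  subst h2 h4
  show (f lo + f (lo + d) <<< W) + (f (lo + 2 * d) + f (lo + 3 * d) <<< W) <<< (2 * W) +
      ((f (lo + 4 * d) + f (lo + 5 * d) <<< W) + (f (lo + 6 * d) + f (lo + 7 * d) <<< W) <<< (2 * W))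
        <<< (4 * W) = _
  simp only [Nat.shiftLeft_eq, sum_range_succ, sum_range_zero, Nat.zero_mul, Nat.add_zero,
    Nat.one_mul]
  ring

/-- The entries that are read. -/
def cut (f : ℕ → ℕ) (m t : ℕ) : ℕ := if 8 * (t / 8) < m then f t else 0

theorem g8_eq (W : ℕ) (f : ℕ → ℕ) (m k : ℕ) :
    g8 W f m (8 * k) = ∑ c ∈ range 8, cut f m (8 * k + c) * 2 ^ (W * c) := by
  have hc : ∀ c ∈ range 8, 8 * ((8 * k + c) / 8) = 8 * k := fun c hc => by
    have := mem_range.1 hc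
    omega
  unfold g8
  by_cases h : m ≤ 8 * k
  · rw [Nat.ble_eq_true_of_le h, cond_true]
    refine (sum_eq_zero fun c hc' => ?_).symm
    rw [cut, hc c hc', if_neg (by omega), Nat.zero_mul]
  · have hb : Nat.ble m (8 * k) = false := by
      rcases e : Nat.ble m (8 * k) with _ | _
      · rfl
      · exact absurd (Nat.le_of_ble_eq_true e) h
    rw [hb, cond_false]
    refine (c8_eq W _ _ f _ _ rfl rfl).trans ?_
    refine sum_congr rfl fun c hc' => ?_
    rw [cut, hc c hc', if_pos (by omega)]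
    show f (8 * k + c * 1) * _ = _
    rw [Nat.mul_one]

theorem blk (W : ℕ) (F : ℕ → ℕ) (N k : ℕ) :
    ∑ t ∈ range (N + 8 * k), F t * 2 ^ (W * t) = ∑ t ∈ range N, F t * 2 ^ (W * t) +
      (∑ c ∈ range k, (∑ e ∈ range 8, F (N + 8 * c + e) * 2 ^ (W * e)) * 2 ^ (8 * W * c)) *
        2 ^ (N * W) := by
  induction k with
  | zero => simp
  | succ k ih =>
    rw [show N + 8 * (k + 1) = N + 8 * k + 8 by ring, sum_range_add, ih, sum_range_succ _ k,
      add_mul, add_assoc, sum_mul (range 8), sum_mul (range 8)]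
    congr 2
    refine sum_congr rfl fun e _ => ?_
    ring

theorem rec_eq (W : ℕ) (f : ℕ → ℕ) (m J : ℕ) :
    (Nat.rec 0 (fun j ih => ih + c8 (8 * W) (16 * W) (32 * W) (g8 W f m) 8 (64 * j) <<< (64 * j * W))
      J : ℕ) = ∑ t ∈ range (64 * J), cut f m t * 2 ^ (W * t) := by
  induction J with
  | zero => simp
  | succ j ih =>
    rw [show 64 * (j + 1) = 64 * j + 8 * 8 by ring, blk, ← ih]
    show _ + c8 (8 * W) (16 * W) (32 * W) (g8 W f m) 8 (64 * j) <<< (64 * j * W) = _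
    rw [Nat.shiftLeft_eq, c8_eq _ _ _ _ _ _ (by ring) (by ring)]
    congr 2
    refine sum_congr rfl fun c _ => ?_
    rw [show 64 * j + c * 8 = 8 * (8 * j + c) by ring, g8_eq,
      show 64 * j + 8 * c = 8 * (8 * j + c) by ring]

theorem cat_eq (W : ℕ) (f : ℕ → ℕ) (m : ℕ) :
    cat W f m = ∑ t ∈ range (64 * ((m + 63) / 64)), cut f m t * 2 ^ (W * t) := by
  rw [← rec_eq, show (m + 63) / 64 = (m + 63) >>> 6 from (Nat.shiftRight_eq_div_pow _ 6).symm]
  rfl

end Cat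

open Cat in
theorem rowCat : SCat := by
  intro W f m
  obtain ⟨r, hr⟩ : ∃ r, 64 * ((m + 63) / 64) = m + r := ⟨64 * ((m + 63) / 64) - m, by omega⟩
  unfold Rq pk
  rw [cat_eq, hr, sum_range_add]
  have h1 : ∑ t ∈ range m, cut f m t * 2 ^ (W * t) = ∑ t ∈ range m, f t * 2 ^ (W * t) := by
    refine sum_congr rfl fun t ht => ?_
    have := mem_range.1 ht
    rw [cut, if_pos (by omega)]
  rw [h1]
  push_cast
  refine (Int.modEq_iff_dvd.2 ?_).symm
  rw [add_sub_cancel_left]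
  refine dvd_sum fun t _ => Dvd.dvd.mul_left (pow_dvd_pow _ ?_) _
  exact Nat.mul_le_mul_left _ (Nat.le_add_right _ _)

end Pool.Agent.MP_6a06cd_co.KL
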