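import Pool.Agent.MP_6a06cd_co.KM.Spec3

/-! Row Sp: spreading the fields of a packed number. -/

namespace Pool.Agent.MP_6a06cd_co.KL

open Finset K

namespace Sp

theorem lt (V : ℕ) (d : ℕ → ℕ) (hd : ∀ s, d s < 2 ^ V) (m : ℕ) :
    ∑ s ∈ range m, d s * 2 ^ (V * s) < 2 ^ (V * m) := by
  induction m with
  | zero => simp
  | succ m ih =>
    rw [sum_range_succ, Nat.mul_succ, pow_add]
    have h1 : (d m + 1) * 2 ^ (V * m) ≤ 2 ^ V * 2 ^ (V * m) := Nat.mul_le_mul_right _ (hd m)
    rw [add_mul, one_mul, mul_comm (2 ^ V)] at h1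
    omega

theorem tb (V : ℕ) (d : ℕ → ℕ) (hd : ∀ s, d s < 2 ^ V) (m s j : ℕ) (hj : j < V) :
    (∑ s ∈ range m, d s * 2 ^ (V * s)).testBit (V * s + j) = (decide (s < m) && (d s).testBit j) := by
  induction m with
  | zero => simp
  | succ m ih =>
    rw [sum_range_succ, add_comm, mul_comm (d m), Nat.testBit_two_pow_mul_add _ (lt V d hd m)]
    rcases lt_trichotomy s m with h | rfl | h
    · have h1 : V * (s + 1) ≤ V * m := Nat.mul_le_mul_left _ h
      rw [Nat.mul_succ] at h1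
      rw [if_pos (by omega), ih]
      simp [h, h.trans m.lt_succ_self]
    · rw [if_neg (by omega), Nat.add_sub_cancel_left]
      simp
    · have h1 : V * (m + 1) ≤ V * s := Nat.mul_le_mul_left _ h
      rw [Nat.mul_succ] at h1
      rw [if_neg (by omega), Nat.testBit_lt_two_pow
        ((hd m).trans_le (Nat.pow_le_pow_right two_pos (by omega)))]
      simp [show ¬ s < m + 1 by omega]

theorem spM_eq (H : SBas) (b W m x : ℕ) (hb : 1 ≤ b) (hm : 1 ≤ m) (hW : b * (m + 1) ≤ W)
    (hx : x < 2 ^ (b * m)) : spM b W m x = ∑ i ∈ range m, pc b x i * 2 ^ (W * i) := by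
  obtain ⟨h1, h2, -, -, -, -, -, h3, -⟩ := H
  rw [Nat.mul_succ] at hW
  have hbm : 1 ≤ b * m := Nat.mul_pos hb hm
  have e0 : spM b W m x = (x * ones (W - b) m) &&& (mk b * ones W m) := rfl
  rw [e0, h3 _ _ (by omega), h3 _ _ (by omega), (h1 b).2, mul_sum, mul_sum]
  have hp : 2 ^ b ≤ 2 ^ W := Nat.pow_le_pow_right two_pos (by omega)
  have hq : 0 < 2 ^ b := Nat.two_pow_pos b
  refine Nat.eq_of_testBit_eq fun p => ?_
  have hj : p % W < W := Nat.mod_lt _ (by omega)
  rw [← Nat.div_add_mod p W]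
  generalize p / W = i at *
  generalize p % W = j at *
  rw [Nat.testBit_and, tb W (fun _ => 2 ^ b - 1) (fun _ => by omega) m i j hj,
    tb W (pc b x) (fun s => by rw [h2]; exact (Nat.mod_lt _ hq).trans_le hp) m i j hj, h2,
    Nat.testBit_two_pow_sub_one, Nat.testBit_mod_two_pow, Nat.testBit_div_two_pow]
  by_cases hi : i < m
  · by_cases hjb : j < b
    · have h4 : b * (i + 1) ≤ b * m := Nat.mul_le_mul_left _ hi
      rw [Nat.mul_succ] at h4
      have h5 : W * i + j = (W - b) * i + (b * i + j) := by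
        rw [← add_assoc, ← add_mul, Nat.sub_add_cancel (by omega)]
      rw [h5, tb (W - b) (fun _ => x)
        (fun _ => hx.trans_le (Nat.pow_le_pow_right two_pos (by omega))) m i _ (by omega)]
      simp [hi, hjb, add_comm]
    · simp [hjb]
  · simp [hi]

end Sp

theorem rowSp : OfSp := by
  intro H R b W m x hb hW hx
  rcases Nat.eq_zero_or_pos m with rfl | hm
  · simp [Rq, Int.modEq_one]
  have hW1 : 1 ≤ W := le_trans (Nat.mul_pos hb m.succ_pos) hW
  obtain ⟨r1, -, -, r4, -, -, -, r8, -⟩ := R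
  have h1 : Rq W m (spM b W m x) fun i => (pc b x i : ℤ) := by
    rw [Sp.spM_eq H b W m x hb hm hW hx, Rq, pk]
    push_cast
    rfl
  have h2 := r8 W 1 m (b - 1) hW1
  rw [mul_one, one_mul] at h2
  refine r4 W m _ _ _ (fun i _ => ?_) (r1 W m _ _ _ _ h1 h2)
  simp [en, o1, pk, sub_eq_add_neg]

end Pool.Agent.MP_6a06cd_co.KL
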