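import Pool.Agent.MP_6a06cd_co.KM.Spec3

/-! Row Stp: the packed step of the machine is the sum over the listed moves. -/

namespace Pool.Agent.MP_6a06cd_co.KL

open K

namespace Stp

theorem land_mod (x n : ℕ) : Nat.land x (2 ^ n - 1) = x % 2 ^ n := Nat.and_two_pow_sub_one_eq_mod x n

theorem fe_eq (T h i : ℕ) : fe T h i = T >>> (24 * i) / 2 ^ h % 2 ^ 12 := by
  have h1 : fe T h i = Nat.land (T >>> (24 * i + h)) (2 ^ 12 - 1) := rfl
  rw [h1, land_mod, Nat.shiftRight_add, Nat.shiftRight_eq_div_pow _ h]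

theorem fe0 (T i : ℕ) : fe T 0 i = T >>> (24 * i) % 16777216 % 4096 := by
  rw [fe_eq]
  generalize T >>> (24 * i) = X
  omega

theorem fe12 (T i : ℕ) : fe T 12 i = T >>> (24 * i) % 16777216 / 4096 := by
  rw [fe_eq]
  generalize T >>> (24 * i) = X
  omega

theorem bas_eq (s : ℕ) : bas s = s / 2 ^ 11 % 2 ^ 20 * 2 ^ 6 + s / 2 ^ 31 * 2 ^ 36 := by
  have h1 : bas s = (Nat.land (s >>> 11) (2 ^ 20 - 1)) <<< 6 + (s >>> 31) <<< 36 := rfl
  rw [h1, land_mod, Nat.shiftLeft_eq, Nat.shiftLeft_eq, Nat.shiftRight_eq_div_pow,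
    Nat.shiftRight_eq_div_pow]

theorem sel_zero {T h i : ℕ} (s : ℕ) (e : fe T h i = 0) : sel T h s i = 0 := by
  have h1 : sel T h s i = tb T h i + bas s * fl T h i := rfl
  have h2 : tb T h i = 0 := by unfold tb; rw [e]; rfl
  have h3 : fl T h i = 0 := by unfold fl; rw [e]; rfl
  rw [h1, h2, h3, Nat.mul_zero]

theorem sel_succ {T h i m : ℕ} (s : ℕ) (e : fe T h i = m + 1) :
    sel T h s i = nx s (m / 64) (m % 64) + 1 := by
  have h1 : sel T h s i = tb T h i + bas s * fl T h i := rfl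
  have h2 : tb T h i = Nat.land m (2 ^ 6 - 1) + (m >>> 6) <<< 31 + 1 := by unfold tb; rw [e]; rfl
  have h3 : fl T h i = 1 := by unfold fl; rw [e]; rfl
  rw [h1, h2, h3, land_mod, Nat.shiftLeft_eq, Nat.shiftRight_eq_div_pow, bas_eq, nx]
  generalize s / 2 ^ 11 % 2 ^ 20 = A
  generalize s / 2 ^ 31 = B
  omega

theorem fld_succ (m : ℕ) : fld (m + 1) = [(m / 64, m % 64)] := rfl

theorem st2_eq (T : ℕ) (f : ℕ → ℕ) (s i : ℕ) :
    st2 T f s i = ((fld (fe T 0 i) ++ fld (fe T 12 i)).map fun m => f (nx s m.1 m.2)).sum := by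
  have h1 : st2 T f s i = Nat.rec (Nat.rec 0 (fun s2 _ => f s2) (sel T 12 s i))
      (fun s1 _ => Nat.rec (f s1) (fun s2 _ => f s1 + f s2) (sel T 12 s i)) (sel T 0 s i) := rfl
  rw [h1]
  rcases e0 : fe T 0 i with _ | m0 <;> rcases e1 : fe T 12 i with _ | m1
  · rw [sel_zero s e0, sel_zero s e1]
    rfl
  · rw [sel_zero s e0, sel_succ s e1, fld_succ]
    rfl
  · rw [sel_succ s e0, sel_zero s e1, fld_succ]
    rfl
  · rw [sel_succ s e0, sel_succ s e1, fld_succ, fld_succ]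
    rfl

theorem stp_eq (fin : Bool) (f : ℕ → ℕ) (s : ℕ) :
    stp (if fin then T1 else T0) f s = stS fin f s := by
  unfold stS mvs ent
  generalize (if fin = true then T1 else T0) = T
  have h1 : stp T f s = st2 T f s (Nat.land s (2 ^ 9 - 1)) := rfl
  have h2 : s % 2 ^ 9 = s % 64 + 64 * (s / 64 % 32 % 8) := by omega
  rw [h1, land_mod, h2, st2_eq, fe0, fe12]

theorem stp0 (f : ℕ → ℕ) (s : ℕ) : stp T0 f s = stS false f s := by
  rw [← stp_eq, if_neg Bool.false_ne_true]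

theorem stp1 (f : ℕ → ℕ) (s : ℕ) : stp T1 f s = stS true f s := by
  rw [← stp_eq, if_pos rfl]

theorem sw_eq (f : ℕ → ℕ) (i : ℕ) : sw f i = swS f i := by
  induction i with
  | zero => rfl
  | succ i ih =>
    funext s
    have h1 : sw f (i + 1) s = stp T0 (sw f i) s := rfl
    rw [h1, stp0, ih, swS]

theorem rp_stS (h : SRq) {S n m : ℕ} {f : ℕ → ℕ} {F : ℕ → ℕ → ℕ → ℤ}
    (H : ∀ s, Rp S n m (f s) fun i t => F i t s) (fin : Bool) (s : ℕ) :
    Rp S n m (stS fin f s) fun i t => stS fin (F i t) s := by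
  obtain ⟨-, -, -, -, -, -, -, -, ha, -, hz, -⟩ := h
  unfold stS
  generalize mvs fin (s % 64) (s / 64 % 32) = L
  induction L with
  | nil => exact hz S n m
  | cons a L ih => exact ha S n m _ _ _ _ (H _) ih

end Stp

open Stp in
theorem rowStp : OfStp := by
  intro _ h
  refine ⟨fun f s => ⟨stp0 f s, stp1 f s⟩, fun f i s => by rw [sw_eq], fun S n m f F H =>
    ⟨fun s => by rw [stp1]; exact rp_stS h H true s, fun l => ?_⟩⟩
  rw [sw_eq]
  induction l with
  | zero => exact H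
  | succ l ih => exact rp_stS h (F := fun i t => swS (F i t) l) ih false

end Pool.Agent.MP_6a06cd_co.KL
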