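import Pool.Agent.MP_6a06cd_co.KM.Spec3

/-! Row Sw: sweeps of the packed states follow the rules. -/

namespace Pool.Agent.MP_6a06cd_co.KL

namespace Sw

theorem okMv_facts {fin : Bool} {k c y k' : ℕ} (h : okMv fin k c y k' = true) :
    k' < 35 ∧ aZ y = kZ k ∧ aB y < 6 := by
  unfold okMv at h
  simp only [Bool.and_eq_true] at h
  obtain ⟨⟨⟨⟨⟨⟨⟨⟨⟨⟨⟨⟨⟨⟨h1, h2⟩, -⟩, h3⟩, -⟩, -⟩, -⟩, -⟩, -⟩, -⟩, -⟩, -⟩, -⟩, -⟩, -⟩ := h
  exact ⟨of_decide_eq_true h1, eq_of_beq h2, of_decide_eq_true h3⟩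

theorem one (tab : STab) (tb : STb) {x : ℝ} {Bd : ℕ → List ℕ → ℕ → List ℕ → ℝ → ℝ → Prop}
    (R : Rules x Bd) (F : ℕ → ℝ) (z i : ℕ) (A B : List ℕ) {κ : ℝ} (hκ : 0 ≤ κ) (c : ℕ)
    (q p : List ℕ) (k : ℕ) (hi : i < 18) (hq : q.length ≤ 4) (hp : Cl z p k)
    (H : ∀ y k', Cl z (y :: p) k' → Bd i (y :: p ++ A) k' (q ++ B) κ (F (sc k' q (y :: p)))) :
    Bd (i + 1) (p ++ A) k (c :: q ++ B) κ (stS (decide (q ++ B = [])) F (sc k (c :: q) p)) := by
  obtain ⟨-, -, t3, -, -, -, -, t8, -, t10⟩ := tb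
  by_cases hv : k < 35 ∧ (p ++ A).length + (c :: q ++ B).length = 18 ∧
      Shape (p ++ A) (rB (kZ k)) ∧ Shape (c :: q ++ B) (kB k)
  swap
  · exact R.vac _ _ _ _ _ _ hv
  obtain ⟨hk, -, -, hs⟩ := hv
  have h1 := (t10 _ _ hs).1
  have hc : c ≤ 20 := h1 c (by simp)
  have h2 : cd q < 2 ^ 20 := (t8 q fun a ha => h1 a (by simp [ha])).1.trans_le
    ((Nat.pow_le_pow_right (by norm_num) hq).trans (by norm_num))
  have e : sc k (c :: q) p = k + 64 * (c + 32 * cd q) + 2 ^ 31 * cd p := rfl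
  have e1 : sc k (c :: q) p % 64 = k := by omega
  have e2 : sc k (c :: q) p / 64 % 32 = c := by omega
  have e3 : ∀ y k', nx (sc k (c :: q) p) y k' = sc k' q (y :: p) := fun y k' => by
    have a1 : sc k (c :: q) p / 2 ^ 11 % 2 ^ 20 = cd q := by omega
    have a2 : sc k (c :: q) p / 2 ^ 31 = cd p := by omega
    rw [nx, a1, a2, Nat.add_comm (32 * cd p) y]
    rfl
  rw [stS, e1, e2]
  simp only [e3]
  refine R.step i (p ++ A) k c (q ++ B) κ (fun y k' => F (sc k' q (y :: p))) hi hκ fun m hm => ?_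
  have h3 := tab (decide (q ++ B = [])) k c hk hs.1
  rw [okList, Bool.and_eq_true, List.all_eq_true] at h3
  obtain ⟨m1, m2, m3⟩ := okMv_facts (h3.1 m hm)
  refine H _ _ ⟨m1, fun a ha => ?_, fun h => absurd h (List.cons_ne_nil _ _), fun a ha => ?_⟩
  · rcases List.mem_cons.1 ha with rfl | h
    · exact t3 _ m3
    · exact hp.2.1 a h
  · cases p with
    | nil =>
      obtain rfl : m.1 = a := by simpa using ha
      exact m2.trans (hp.2.2.1 rfl)
    | cons b p => exact hp.2.2.2 a (by rwa [List.getLast?_cons_cons] at ha)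

end Sw

theorem rowSw : OfSw := by
  intro tab tb x Bd R F z i A B κ hκ
  refine ⟨Sw.one tab tb R F z i A B hκ, fun m q0 h0 h1 h2 H q => ?_⟩
  induction q with
  | nil => exact fun p k h hp => H p k h hp
  | cons c q ih =>
    intro p k h hp
    rw [List.length_cons] at h
    have := Sw.one tab tb R (swS F q.length) z (i + q.length) A B hκ c (q ++ q0) p k (by omega)
      (by rw [List.length_append]; omega) hp fun y k' h' =>
        ih (y :: p) k' (by rw [List.length_cons]; omega) h'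
    rwa [decide_eq_false fun e => h0 (by
      rw [List.append_assoc] at e
      exact (List.append_eq_nil_iff.1 e).2)] at this

end Pool.Agent.MP_6a06cd_co.KL
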