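import Pool.Agent.MP_6a06cd_co.KM.Spec3

/-! The small packed tables agree with the lists. -/

namespace Pool.Agent.MP_6a06cd_co.KL

open K

namespace Tb

theorem pc_eq (W Y p : ℕ) : pc W Y p = Y / 2 ^ (W * p) % 2 ^ W := by
  show (Y >>> (W * p)) &&& (1 <<< W - 1) = _
  rw [Nat.shiftRight_eq_div_pow, Nat.one_shiftLeft, Nat.and_two_pow_sub_one_eq_mod]

theorem pc_big {Y n p : ℕ} (h : Y < 2 ^ (4 * n)) (hp : n ≤ p) : pc 4 Y p = 0 := by
  rw [pc_eq, Nat.div_eq_of_lt (h.trans_le (Nat.pow_le_pow_right (by omega) (by omega))),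
    Nat.zero_mod]

theorem oc_eq (w : ℕ) : oc w = 0xf0ff / 2 ^ (w % 32) % 2 := by
  show (0xf0ff >>> (w &&& (2 ^ 5 - 1))) &&& (2 ^ 1 - 1) = _
  rw [Nat.shiftRight_eq_div_pow, Nat.and_two_pow_sub_one_eq_mod, Nat.and_two_pow_sub_one_eq_mod]

theorem oc_le (w : ℕ) : oc w ≤ 1 := by
  rw [oc_eq]
  omega

theorem oc_congr {w w' : ℕ} (h : w % 32 = w' % 32) : oc w = oc w' := by
  rw [oc_eq, oc_eq, h]

theorem oc_occ {w a : ℕ} (ha : a ≤ 20) (h : w % 32 = a) : oc w = if occ a = true then 1 else 0 := by
  rw [oc_eq, h]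
  interval_cases a <;> decide

theorem noc4_eq (w : ℕ) : noc4 w = oc w + oc (w / 32) + (oc (w / 1024) + oc (w / 32768)) := by
  show oc w + oc (w >>> 5) + (oc (w >>> 10) + oc (w >>> 15)) = _
  simp only [Nat.shiftRight_eq_div_pow, Nat.reducePow]

theorem noc5_eq (w : ℕ) :
    noc5 w = oc w + oc (w / 32) + (oc (w / 1024) + oc (w / 32768)) + oc (w / 1048576) := by
  show noc4 w + oc (w >>> 20) = _
  simp only [noc4_eq, Nat.shiftRight_eq_div_pow, Nat.reducePow]

theorem zA_eq (a : ℕ) : zA a = aZ a := by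
  rcases Nat.lt_or_ge a 21 with h | h
  · interval_cases a <;> decide
  · rw [aZ, List.getD_eq_default _ _ (by simpa using h)]
    exact pc_big (n := 21) (by decide) h

theorem tK_eq (k : ℕ) : tK k = if tn k < 35 then tn k + 1 else 0 := by
  rcases Nat.lt_or_ge k 10 with h | h
  · interval_cases k <;> decide
  · rw [tn, List.getD_eq_default _ _ (by simpa using h)]
    exact pc_big (n := 10) (by decide) h

theorem aB_lt (a : ℕ) (h : aB a < 6) : a ≤ 20 := by
  by_contra h'
  rw [aB, List.getD_eq_default _ _ (by simp; omega)] at h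
  omega

theorem cd_lt : ∀ w : List ℕ, (∀ a ∈ w, a ≤ 20) → cd w < 32 ^ w.length
  | [], _ => by simp [cd]
  | a :: w, h => by
    have h1 := cd_lt w fun b hb => h b (List.mem_cons_of_mem _ hb)
    have h2 := h a List.mem_cons_self
    rw [cd, List.length_cons, pow_succ]
    omega

theorem n4 : ∀ w : List ℕ, (∀ a ∈ w, a ≤ 20) → w.length = 4 → noc4 (cd w) = nocc w
  | [a, b, c, d], h, _ => by
    have ha := h a (by simp)
    have hb := h b (by simp)
    have hc := h c (by simp)
    have hd := h d (by simp)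
    rw [noc4_eq, oc_occ ha (by simp only [cd]; omega), oc_occ hb (by simp only [cd]; omega),
      oc_occ hc (by simp only [cd]; omega), oc_occ hd (by simp only [cd]; omega)]
    simp only [nocc, List.countP_cons, List.countP_nil]
    omega

theorem n5 : ∀ w : List ℕ, (∀ a ∈ w, a ≤ 20) → w.length = 5 → noc5 (cd w) = nocc w
  | [a, b, c, d, e], h, _ => by
    have ha := h a (by simp)
    have hb := h b (by simp)
    have hc := h c (by simp)
    have hd := h d (by simp)
    have he := h e (by simp)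
    rw [noc5_eq, oc_occ ha (by simp only [cd]; omega), oc_occ hb (by simp only [cd]; omega),
      oc_occ hc (by simp only [cd]; omega), oc_occ hd (by simp only [cd]; omega),
      oc_occ he (by simp only [cd]; omega)]
    simp only [nocc, List.countP_cons, List.countP_nil]
    omega

theorem cd_app (v : List ℕ) : ∀ u : List ℕ, cd (u ++ v) = cd u + 32 ^ u.length * cd v
  | [] => by simp [cd]
  | a :: u => by
    rw [List.cons_append, cd, cd, cd_app v u, List.length_cons]
    ring

theorem shp : ∀ (w : List ℕ) (β : ℕ), Shape w β → ∀ a ∈ w, a ≤ 20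
  | [], _, _ => by simp
  | c :: w, β, h => by
    obtain ⟨h1, h2, h3⟩ := h
    intro a ha
    rcases List.mem_cons.1 ha with rfl | ha
    · exact aB_lt _ (h1 ▸ h2)
    · exact shp w _ h3 a ha

end Tb

open Tb in
theorem rowTb : STb := by
  refine ⟨fun a => ⟨zA_eq a, ?_⟩, fun a h => ?_, aB_lt, fun z h => ?_, fun k h => ?_, tK_eq,
    fun c => ⟨?_, ?_, ?_⟩, fun w h => ⟨cd_lt w h, n4 w h, n5 w h⟩,
    fun u v => ⟨cd_app v u, List.countP_append⟩, fun w β h => ⟨shp w β h, ?_⟩⟩
  · exact (pc_eq 4 _ a).trans_lt (Nat.mod_lt _ (by decide))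
  · interval_cases a <;> decide
  · interval_cases z <;> decide
  · interval_cases k <;> decide
  · have := oc_le c
    have := oc_le (c / 32)
    have := oc_le (c / 1024)
    have := oc_le (c / 32768)
    rw [noc4_eq]
    omega
  · have := oc_le c
    have := oc_le (c / 32)
    have := oc_le (c / 1024)
    have := oc_le (c / 32768)
    have := oc_le (c / 1048576)
    rw [noc5_eq]
    omega
  · rw [noc5_eq, noc5_eq, oc_congr (w := c % 2 ^ 25) (w' := c) (by omega),
      oc_congr (w := c % 2 ^ 25 / 32) (w' := c / 32) (by omega),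
      oc_congr (w := c % 2 ^ 25 / 1024) (w' := c / 1024) (by omega),
      oc_congr (w := c % 2 ^ 25 / 32768) (w' := c / 32768) (by omega),
      oc_congr (w := c % 2 ^ 25 / 1048576) (w' := c / 1048576) (by omega)]
  · cases w with
    | nil => simp
    | cons c w =>
      intro a ha
      obtain rfl : c = a := by simpa using ha
      exact h.1

end Pool.Agent.MP_6a06cd_co.KL
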