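import Pool.Agent.MP_6a06cd_co.KM.Spec3

/-! Row V: the packed function `fV` represents the integer recursion `sV`. -/

namespace Pool.Agent.MP_6a06cd_co.KL

open Finset K

namespace V

theorem split (p : ℕ) :
    (p >>> 3 &&& 7) < 8 ∧ (p &&& 7) < 8 ∧ 8 * (8 * (p >>> 6) + (p >>> 3 &&& 7)) + (p &&& 7) = p := by
  have h : ∀ x : ℕ, x &&& 7 = x % 8 := fun x => Nat.and_two_pow_sub_one_eq_mod x 3
  rw [h, h, Nat.shiftRight_eq_div_pow, Nat.shiftRight_eq_div_pow]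
  omega

theorem fV0_eq (hB : SBas) (g : ℕ → ℕ) (S n W c0 cs z s : ℕ) :
    fV0 g S n W c0 cs z s = opt (fC g cs (bZ (zK (s % 64))) (s / 2 ^ 31)) fun p =>
      cat W (px (px (px (dX g S n W c0 cs (bZ (zK (s % 64))) (s % 64) z) (64 * W) (p >>> 6)) (8 * W)
        (p >>> 3 &&& 7)) W (p &&& 7)) (nI g z) + nbo S (n * nI g z) (e4 g) := by
  obtain ⟨-, -, -, hN, -, -, -, -, hl, -⟩ := hB
  unfold fV0
  simp only [hN, (hl s).1, (hl s).2]
  rfl

theorem base (hB : SBas) (hR : SRq) (hD : SDc) (hC : SCat) (h12 : SB12) (hI : SI) (g : ℕ → ℕ)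
    (S n W c0 cs z : ℕ) (hW : okW g S n W = true) (hS : e4 g + 7 ≤ S) (s : ℕ) :
    Rp S n (nI g z) (fV0 g S n W c0 cs z s) fun t j => sV0 g cs (c0 + j) z t s := by
  rw [fV0_eq hB]
  obtain ⟨-, -, hx, -, ho, -, -, -, -, -, hf, -⟩ := hB
  obtain ⟨r1, -, -, r4, -, -, -, r8, -, -, r11, -, -⟩ := hR
  have hWe : W = S * n := ((h12 g S n W).1 hW).1
  rw [ho]
  unfold sV0 oS
  rcases hf 25 (g (a2 8 (bZ (zK (s % 64))) cs)) (nC g cs (bZ (zK (s % 64)))) (s / 2 ^ 31) with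
    h | ⟨p, hp, h, -⟩
  · have h' : fC g cs (bZ (zK (s % 64))) (s / 2 ^ 31) = 0 := h
    simp only [h', if_true]
    exact r11 _ _ _
  · have h' : fC g cs (bZ (zK (s % 64))) (s / 2 ^ 31) = p + 1 := h
    simp only [h', Nat.add_one_ne_zero, if_false, Nat.add_sub_cancel]
    obtain ⟨s1, s2, s3⟩ := split p
    have h1 := r1 _ _ _ _ _ _ (hC W (px (px (px (dX g S n W c0 cs (bZ (zK (s % 64))) (s % 64) z)
      (64 * W) (p >>> 6)) (8 * W) (p >>> 3 &&& 7)) W (p &&& 7)) (nI g z))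
      (hWe ▸ r8 S n (nI g z) (e4 g) (by omega))
    unfold Rp
    rw [← hWe]
    refine r4 _ _ _ _ _ (fun t _ => ?_) h1
    rw [hx, hx, hx, show 64 * W = 8 * (8 * W) by ring, hD.2.2 _ _ _ _ _ s1, hD.2.2 _ _ _ _ _ s2, s3,
      hI g S n W c0 cs _ _ z t p hW hS hp]
    ring

end V

theorem rowV : OfV := by
  intro hB hR hD hC hS h12 hI g S n W c0 cs k z J hW he
  have h := (hS.2.2 S n (nI g z) (fV0 g S n W c0 cs z) (fun t j s => sV0 g cs (c0 + j) z t s)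
    (V.base hB hR hD hC h12 hI g S n W c0 cs z hW he)).2 5 (k + 64 * J)
  unfold fV
  rw [hB.2.2.2.1, hB.2.2.2.2.2.2.2.2.2.1]
  exact h

end Pool.Agent.MP_6a06cd_co.KL
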