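import Pool.Agent.MP_6a06cd_co.KL.Gf
import Pool.Agent.MP_6a06cd_co.KL.Ht
import Pool.Agent.MP_6a06cd_co.KL.Cor
import Pool.Agent.MP_6a06cd_co.KL.Ren1
import Pool.Agent.MP_6a06cd_co.KL.RenU
import Pool.Agent.MP_6a06cd_co.KL.RenD
import Pool.Agent.MP_6a06cd_co.KL.Seq
import Pool.Agent.MP_6a06cd_co.KL.Step
import Pool.Agent.MP_6a06cd_co.KL.Adv
import Pool.Agent.MP_6a06cd_co.KL.Lim
import Pool.Agent.MP_6a06cd_co.KL.Fin
import Pool.Agent.MP_6a06cd_co.KL.Geo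
import Pool.Agent.MP_6a06cd_co.KL.Tr
import Pool.Agent.MP_6a06cd_co.KL.Vs
import Pool.Agent.MP_6a06cd_co.KL.Tail
import Pool.Agent.MP_6a06cd_co.KL.Low
import Pool.Agent.MP_6a06cd_co.KL.Upp
import Pool.Agent.MP_6a06cd_co.KL.TabOK
import Pool.Agent.MP_6a06cd_co.KL.W
import Pool.Agent.MP_6a06cd_co.KL.Ed
import Pool.Agent.MP_6a06cd_co.KL.Mv
import Pool.Agent.MP_6a06cd_co.KL.End
import Pool.Agent.MP_6a06cd_co.KL.Rul
import Pool.Agent.MP_6a06cd_co.KL.Sub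
import Pool.Agent.MP_6a06cd_co.KL.Big
import Pool.Agent.MP_6a06cd_co.KL.Fc
import Pool.Agent.MP_6a06cd_co.KL.BitE
import Pool.Agent.MP_6a06cd_co.KL.BitO
import Pool.Agent.MP_6a06cd_co.KL.Xe
import Pool.Agent.MP_6a06cd_co.KL.Xo
import Pool.Agent.MP_6a06cd_co.KL.Xv
import Pool.Agent.MP_6a06cd_co.KL.Xk
import Pool.Agent.MP_6a06cd_co.KL.Xf
import Pool.Agent.MP_6a06cd_co.KM.Bas
import Pool.Agent.MP_6a06cd_co.KM.Tb
import Pool.Agent.MP_6a06cd_co.KM.Rq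
import Pool.Agent.MP_6a06cd_co.KM.Dc
import Pool.Agent.MP_6a06cd_co.KM.Sp
import Pool.Agent.MP_6a06cd_co.KM.Cat
import Pool.Agent.MP_6a06cd_co.KM.Stp
import Pool.Agent.MP_6a06cd_co.KM.Lin
import Pool.Agent.MP_6a06cd_co.KM.Bnd
import Pool.Agent.MP_6a06cd_co.KM.B12
import Pool.Agent.MP_6a06cd_co.KM.Tg
import Pool.Agent.MP_6a06cd_co.KM.J
import Pool.Agent.MP_6a06cd_co.KM.I
import Pool.Agent.MP_6a06cd_co.KM.V
import Pool.Agent.MP_6a06cd_co.KM.Chk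
import Pool.Agent.MP_6a06cd_co.KM.Sw
import Pool.Agent.MP_6a06cd_co.KM.A1
import Pool.Agent.MP_6a06cd_co.KM.A2
import Pool.Agent.MP_6a06cd_co.KM.A3
import Pool.Agent.MP_6a06cd_co.KM.A4
import Pool.Agent.MP_6a06cd_co.KM.A5

/-! The rows put together. -/

namespace Pool.Agent.MP_6a06cd_co.KL

open Finset Filter Topology K
open scoped NNReal ENNReal

theorem sHt : SHt := rowHt rowGf
theorem sCor : SCor := rowCor sHt
theorem sSeq : SSeq :=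
  rowSeq rowGf (rowRen1 rowGf sHt) (rowRenU rowGf sHt sCor) (rowRenD rowGf sHt sCor)
theorem sTr : STr := rowTr rowGf sHt sCor rowGeo
theorem sLow : SLow := rowLow rowGf rowVs (rowTail rowGf rowGeo)
theorem sEnd : SEnd := rowEnd rowW
theorem sBig : SBig := rowBig rowGf sTr sLow
  (rowSub rowW rowVs sEnd (rowRul rowTabOK rowVs (rowMv rowW (rowEd rowW)) sEnd))
theorem sXf : SXf := rowXf rowVs sTr sLow (rowUpp rowGf rowVs) rowFc rowBitE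
  (rowXv rowVs (rowXe rowFc rowBitE) (rowXo rowFc rowBitO)) rowXk
theorem sRq : SRq := rowRq rowBas
theorem sDc : SDc := rowDc rowBas
theorem sStp : SStp := rowStp rowBas sRq
theorem sBnd : SBnd := rowBnd rowBas rowLin
theorem sB12 : SB12 := rowB12 rowBas sRq sDc (rowSp rowBas sRq) sBnd
theorem sChk : SChk := rowChk rowBas rowTb sRq sDc sBnd sB12 (rowTg rowBas sRq sDc rowCat sBnd sB12)
  (rowV rowBas sRq sDc rowCat sStp sB12 (rowI rowBas sRq sDc sStp sBnd sB12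
    (rowJ rowBas rowTb sRq sDc rowCat sStp sBnd sB12)))
theorem sSw : SSw := rowSw rowTabOK rowTb
theorem sA5 : SA5 := rowA5 rowBas rowTb sBnd (rowA1 rowBas rowTb rowLin sSw) (rowA2 rowBas rowTb rowLin sSw)
  (rowA3 rowBas rowTb rowLin sSw) (rowA4 rowBas rowTb rowLin sBnd)

/-- the weights, checked on integers -/
theorem okW_of (g : ℕ → ℕ) (p q : ℕ) (hq : 0 < q)
    (h1 : ∀ j < 6, wJ g j * q ^ j ≤ 2 ^ 20 * p ^ j ∧ 2 ^ 20 * phJ g j * q ^ j ≤ psJ g j * p ^ j)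
    (h2 : ∀ j < 5, wI g j * q ^ j ≤ 2 ^ 19 * p ^ j ∧ 2 ^ 19 * phI g j * q ^ j ≤ psI g j * p ^ j) :
    OkW g ((p : ℝ) / q) := by
  have hq' : ∀ j : ℕ, (0 : ℝ) < (q : ℝ) ^ j := fun j => by positivity
  refine ⟨fun j hj => ?_, fun j hj => ?_⟩
  · obtain ⟨a, b⟩ := h1 j (by omega)
    rw [div_pow, ← mul_div_assoc, ← mul_div_assoc, le_div_iff₀ (hq' j), le_div_iff₀ (hq' j)]
    exact ⟨by exact_mod_cast a, by exact_mod_cast b⟩
  · obtain ⟨a, b⟩ := h2 j (by omega)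
    rw [div_pow, ← mul_div_assoc, ← mul_div_assoc, le_div_iff₀ (hq' j), le_div_iff₀ (hq' j)]
    exact ⟨by exact_mod_cast a, by exact_mod_cast b⟩

def rq (L : List ℕ) (i : ℕ) : ℚ := (L.getD i 0 : ℚ) / 2 ^ 40

/-- the rational side conditions of the renewal bound with `k = 16`, `D = 36` -/
def Ren (A Bq FL FU UU : List ℕ) (r aL g y : ℚ) : Prop :=
  (∀ d < 17, 1 ≤ d → rq FL d + ∑ i ∈ Ico 1 d, rq FU i * (32 * rq Bq (d - i)) ≤ 32 * rq A d ∧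
    32 * rq Bq d ≤ rq FU d + ∑ i ∈ Ico 1 d, rq FL i * (32 * rq A (d - i))) ∧
  1 ≤ rq UU 0 ∧ (∀ d < 37, 1 ≤ d → ∑ i ∈ Icc 1 (min d 16), rq FU i * rq UU (d - i) ≤ rq UU d) ∧
  1 ≤ r + ∑ i ∈ Icc 1 16, rq FL i ∧
  (∀ m < 17, ∑ i ∈ range (m + 1), rq UU i * rq UU (m - i) ≤ 1) ∧
  (∀ m < 20, 16 < m → ∑ i ∈ range (m + 1), rq UU i * rq UU (m - i) ≤ aL) ∧
  (∀ m < 3, ∑ i ∈ range (m + 1), rq UU i * ∑ j ∈ range (m - i + 1), rq UU j * rq UU (m - i - j) ≤ g) ∧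
  rq UU 36 + r * 1 ≤ y ∧ rq UU 36 + r * aL + r ^ 2 * g ≤ y

instance (A Bq FL FU UU : List ℕ) (r aL g y : ℚ) : Decidable (Ren A Bq FL FU UU r aL g y) := by
  unfold Ren; infer_instance

theorem rq_nonneg (L : List ℕ) (i : ℕ) : (0 : ℝ) ≤ (rq L i : ℚ) := by
  have : 0 ≤ rq L i := by unfold rq; positivity
  exact_mod_cast this

theorem upper36 (x : ℝ≥0) (hF : FinH x) (A Bq FL FU UU : List ℕ) (r aL g y : ℚ)
    (hX : ∀ d, 1 ≤ d → d ≤ 16 → ENNReal.ofReal ((A.getD d 0 : ℕ) / 2 ^ 36) ≤ B x d ∧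
      B x d ≤ ENNReal.ofReal ((Bq.getD d 0 : ℕ) / 2 ^ 36))
    (hR : Ren A Bq FL FU UU r aL g y) : B x 36 ≠ ⊤ ∧ 2 * (B x 36).toReal ≤ y := by
  obtain ⟨h, f, h0, hB, hf, hr, hs⟩ := sSeq x hF
  obtain ⟨r1, r2, r3, r4, r5, r6, r7, r8, r9⟩ := hR
  have e : ∀ (L : List ℕ) d, ((32 * rq L d : ℚ) : ℝ) = 2 * (((L.getD d 0 : ℕ) : ℝ) / 2 ^ 36) := by
    intro L d; unfold rq; push_cast; ring
  have hfl := rowStep h f (fun d => ((32 * rq A d : ℚ) : ℝ)) (fun d => ((32 * rq Bq d : ℚ) : ℝ))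
    (fun d => (rq FL d : ℚ)) (fun d => (rq FU d : ℚ)) 16 h0 hf hr
    (fun d d1 d2 => by
      obtain ⟨a, b⟩ := hX d d1 d2
      obtain ⟨c, c'⟩ := hB d d1
      rw [e, e, c']
      refine ⟨by positivity, ?_, ?_⟩
      · have := (ENNReal.ofReal_le_iff_le_toReal c).1 a
        linarith
      · have := ENNReal.toReal_le_of_le_ofReal (by positivity) b
        linarith)
    (fun d d1 d2 => by
      obtain ⟨a, b⟩ := r1 d (by omega) d1
      exact ⟨rq_nonneg _ _, by exact_mod_cast a, by exact_mod_cast b⟩)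
  have key := rowAdv h f (fun d => (rq FL d : ℚ)) (fun d => (rq FU d : ℚ)) (fun d => (rq UU d : ℚ)) 16 36
    r aL 1 g y (by norm_num) (by norm_num) h0 hf hr hs hfl (by exact_mod_cast r2)
    (fun d d1 d2 => by exact_mod_cast r3 d (by omega) d1) (by exact_mod_cast r4)
    (fun m hm => by exact_mod_cast r5 m (by omega))
    (fun m h1 h2 => by exact_mod_cast r6 m (by omega) h1)
    (fun m hm => by exact_mod_cast r7 m (by omega)) (by exact_mod_cast r8) (by exact_mod_cast r9)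
  obtain ⟨c, c'⟩ := hB 36 (by norm_num)
  exact ⟨c, c' ▸ key⟩

/-- a certificate above the renewal bound gives the lower bound on the growth constant -/
theorem lower_of (x : ℝ≥0) (hx : 0 < x) (hx1 : x ≤ 1) (gg : List ℕ → ℕ → List ℕ → ℝ) (s y : ℝ) (hs : 0 ≤ s)
    (hC : Cert x gg s) (hU : FinH x → B x 36 ≠ ⊤ ∧ 2 * (B x 36).toReal ≤ y) (hy : y < 4 * s) :
    ∃ lam : ℝ, Tendsto (fun n : ℕ => (H45.t n : ℝ) ^ ((1 : ℝ) / n)) atTop (𝓝 lam) ∧ 1 ≤ lam * x := by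
  obtain ⟨hfin, lam, hl⟩ := rowLim
  refine ⟨lam, hl, ?_⟩
  by_contra hlt
  have hF := rowFin rowGf x lam hfin hl (not_le.1 hlt)
  obtain ⟨a, b⟩ := hU hF
  have := (ENNReal.ofReal_le_iff_le_toReal a).1 (sBig x gg s hx hx1 hF hs hC)
  linarith

end Pool.Agent.MP_6a06cd_co.KL
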