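import Pool.Agent.MP_6a06cd_co.KM.Spec3

/-! The accepted checks give the integer inequalities. -/

namespace Pool.Agent.MP_6a06cd_co.KL

open Finset K

namespace Chk

lemma all_ok (hB : SBas) (hT : STb) (hR : SRq) (hD : SDc) (hN : SBnd) (hG : STg)
    (g : ℕ → ℕ) (S n W : ℕ) (u : ℕ → ℕ) (e : ℕ) (m : ℕ → ℕ → ℤ) (f : ℕ → ℕ) (eJ : ℕ) (h : ℕ → ℕ)
    (F : ℕ → ℕ → ℕ) (Fz : ℕ → ℕ → ℕ → ℕ → ℤ) (b eI : ℕ) (B : ℤ)
    (hW : okW g S n W = true) (hrows : Rows S n e u m) (he : e1 g e + eJ + 2 ≤ S)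
    (hh : ∀ j, h j ≤ 2 ^ eJ) (hf : ∀ j, f j ≤ 2 ^ eI)
    (hF : ∀ z J, Rp S n (nI g z) (F z J) fun t j => Fz j z J t)
    (hFb : ∀ j z J t, |Fz j z J t| ≤ B)
    (hlt : B + 2 ^ (e1 g e + eJ + eI + bP g + 4) < 2 ^ (S - 1))
    (h0 : allJ g S n W u e f eJ h F b = 0) (j : ℕ) (hj : j < n) : OkJ g (m j) f h (Fz j) b := by
  obtain ⟨-, -, -, hfN, -, hsm, -⟩ := hB
  intro t2 t1 t y J z ht2 hy ht1 hJ hz ht
  unfold allJ at h0
  rw [hsm, Finset.sum_eq_zero_iff] at h0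
  have h1 := h0 t2 (mem_range.mpr ht2)
  unfold one2 at h1
  rw [hfN, hsm, Finset.sum_eq_zero_iff] at h1
  have hy' : zA (Nat.shiftRight (j2 g b t2) (nat_lit 5)) = y := by
    rw [hy]
    exact congrArg zA (Nat.shiftRight_eq_div_pow _ 5)
  rw [hy'] at h1
  have h2 := h1 t1 (mem_range.mpr ht1)
  unfold one1 at h2
  rw [hfN, hfN, ← hJ] at h2
  have hz' : zA (Nat.shiftRight J (nat_lit 20)) = z := by
    rw [hz]
    exact congrArg zA (Nat.shiftRight_eq_div_pow _ 20)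
  rw [hz'] at h2
  have hy16 : y < 16 := hy ▸ (hT.1 _).2
  have h3 := hG g S n W u e m f eJ (h (noc5 J)) z y b t2 t1 hW hrows he (hh _) hy16
  have h4 := hR.2.2.2.2.2.2.2.2.1 S n (nI g z) _ _ _ _ (hF z J) h3
  refine hD.2.1 S n (nI g z) _ _ h4 (fun i s _ _ => ?_) (by omega) h2 t j ht hj
  have h5 := ((hN g).2.1 (m s) e (hrows.2 s)).2.2 f eI (h (noc5 J)) eJ hf (hh _) z y b t2 t1 i
  exact ((abs_add_le _ _).trans (add_le_add (hFb s z J i) h5)).trans_lt hlt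

lemma two_lt {a b c : ℕ} (ha : a ≤ c) (hb : b < c) : (2 : ℤ) ^ a + 2 ^ b < 2 ^ (c + 1) := by
  have h1 : (2 : ℤ) ^ a ≤ 2 ^ c := pow_le_pow_right₀ (by norm_num) ha
  have h2 : (2 : ℤ) ^ b < 2 ^ c := pow_lt_pow_right₀ (by norm_num) hb
  rw [pow_succ]
  linarith

end Chk

theorem rowChk : OfChk := by
  intro hB hT hR hD hN h12 hG hV g S n W c0
  obtain ⟨-, -, -, -, -, -, hps, he, he3, he4, -⟩ := hN g
  refine ⟨fun cs msk hc k j hk hm h1 h2 => ?_, fun b hc j h1 h2 => ?_⟩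
  · unfold chkR at hc
    rw [Bool.cond_eq_ite] at hc
    split_ifs at hc with hp
    rw [Bool.and_eq_true, Nat.ble_eq] at hp
    obtain ⟨hW, hS⟩ := hp
    have hS' : e4 g + 7 ≤ S := hS
    have h0 := Nat.eq_of_beq_eq_true hc
    rw [hB.2.2.2.2.2.1, Finset.sum_eq_zero_iff] at h0
    have h3 := h0 k (mem_range.mpr hk)
    unfold oneK at h3
    have hm' : pc (nat_lit 1) msk k = 1 := hm
    rw [hB.2.2.2.2.1, hm', if_neg one_ne_zero, hB.2.2.2.1] at h3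
    have h4 := Chk.all_ok hB hT hR hD hN hG g S n W _ (eM g) _ (psI g) 31 (psJ g) _
      (fun t z J s => sV g cs (c0 + t) k z J s) (bK k) 28 (2 ^ (e4 g + 5)) hW
      ((h12 g S n W).2.2.1 c0 k) (by omega) (fun i => (hps i).2.1) (fun i => (hps i).1)
      (fun z J => hV g S n W c0 cs k z J hW hS') (fun t z J s => (hN g).2.2.2.2.1 cs _ k z J s)
      ((Chk.two_lt le_rfl (by omega)).trans_le (pow_le_pow_right₀ (by norm_num) (by omega)))
      h3 (j - c0) (by omega)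
    rw [Nat.add_sub_cancel' h1] at h4
    exact h4
  · unfold chkA at hc
    rw [Bool.cond_eq_ite] at hc
    split_ifs at hc with hp
    rw [Bool.and_eq_true, Nat.ble_eq] at hp
    obtain ⟨hW, hS⟩ := hp
    have hS' : e1 g 0 + bP g + 6 ≤ S := hS
    have h0 := Nat.eq_of_beq_eq_true hc
    have h4 := Chk.all_ok hB hT hR hD hN hG g S n W _ 0 _ (fun _ => 1) 0 (fun _ => 1) _
      (fun _ _ _ _ => 0) b 0 0 hW ((h12 g S n W).2.2.2.1 c0) (by omega) (fun _ => le_rfl) (fun _ => le_rfl)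
      (fun z _ => hR.2.2.2.2.2.2.2.2.2.2.1 S n _) (fun _ _ _ _ => by simp)
      (by rw [zero_add]; exact pow_lt_pow_right₀ (by norm_num) (by omega))
      h0 (j - c0) (by omega)
    rw [Nat.add_sub_cancel' h1] at h4
    exact h4

end Pool.Agent.MP_6a06cd_co.KL
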