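import Pool.Agent.MP_6a06cd_co.KM.Ck

/-! The packed checker restricted to a set of words. Bit `z` of field `t2` (sixteen bits) of block `k`
(512 bits) of the mask selects the words with kink `k`, first index `t2` and last role `z`. -/

namespace Pool.Agent.MP_6a06cd_co.KL.K
noncomputable section

section
variable (g : Nat → Nat) (S n W : Nat)
def one1m (m : Nat) (u : Nat → Nat) (e : Nat) (f : Nat → Nat) (eJ : Nat) (h : Nat → Nat)
    (F : Nat → Nat → Nat) (y b t2 t1 : Nat) : Nat :=
  opt (pc (nat_lit 1) m (zA (Nat.shiftRight (jw g y b t2 t1) (nat_lit 20)))) fun _ =>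
    one1 g S n W u e f eJ h F y b t2 t1
def one2m (m : Nat) (u : Nat → Nat) (e : Nat) (f : Nat → Nat) (eJ : Nat) (h : Nat → Nat)
    (F : Nat → Nat → Nat) (b t2 : Nat) : Nat :=
  opt (pc (nat_lit 16) m t2) fun m' => fN (zA (Nat.shiftRight (j2 g b t2) (nat_lit 5))) fun y =>
    sm (one1m g S n W (Nat.succ m') u e f eJ h F y b t2) (n1 g y)

variable (c0 cs : Nat)
def oneM (msk k : Nat) : Nat :=
  opt (pc (nat_lit 512) msk k) fun m => fN (bK k) fun b =>
    sm (one2m g S n W (Nat.succ m) (mt g S n c0 k) (eM g) (psI g) (nat_lit 31) (psJ g)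
      (fV g S n W c0 cs k) b) (n2 g b)
def chkM (msk : Nat) : Bool :=
  cond (okW g S n W && Nat.ble (Nat.add (e4 g) (nat_lit 7)) S)
    (Nat.beq (sm (oneM g S n W c0 cs msk) (nat_lit 35)) (nat_lit 0)) false
end

/-- the bit of the mask -/
def bit (msk k t2 z : Nat) : Nat := pc (nat_lit 1) (pc (nat_lit 16) (pc (nat_lit 512) msk k) t2) z

end
end Pool.Agent.MP_6a06cd_co.KL.K
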