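import Pool.Agent.MP_6a06cd_co.KM.All
import Pool.Agent.MP_6a06cd_co.KM.Ck2

/-! The restricted checks give the integer inequalities word by word, and these give the certificate. -/

namespace Pool.Agent.MP_6a06cd_co.KL

open Finset K

/-- the inequalities for the words with first index `t2` and last role `z` -/
def OkT (g : ℕ → ℕ) (cs j k t2 z : ℕ) : Prop :=
  ∀ t1 t y J : ℕ, y = zA (j2 g (bK k) t2 / 32) → t1 < n1 g y → J = jw g y (bK k) t2 t1 →
    z = zA (J / 2 ^ 20) → t < nI g z → 0 ≤ sV g cs j k z J t +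
      sT g (fun s => - Mx g k j s) (psI g) (psJ g (noc5 J)) z y (bK k) t2 t1 t

theorem pc_zero (W p : ℕ) : pc W 0 p = 0 := by
  rw [rowBas.2.1]
  simp

theorem opt_zero {n : ℕ} {k : ℕ → ℕ} (h : opt n k = 0) (hn : n ≠ 0) : k (n - 1) = 0 := by
  rwa [rowBas.2.2.2.2.1, if_neg hn] at h

theorem chkM_ok {g : ℕ → ℕ} {S n W c0 cs msk : ℕ} (hc : chkM g S n W c0 cs msk = true)
    {k t2 z : ℕ} (hk : k < 35) (ht2 : t2 < n2 g (bK k)) (hm : bit msk k t2 z ≠ 0) (j : ℕ)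
    (h1 : c0 ≤ j) (h2 : j < c0 + n) : OkT g cs j k t2 z := by
  obtain ⟨-, -, -, -, -, -, hps, he, he3, he4, -⟩ := sBnd g
  obtain ⟨-, -, -, hfN, -, hsm, -⟩ := rowBas
  have hG := rowTg rowBas sRq sDc rowCat sBnd sB12
  have hV := rowV rowBas sRq sDc rowCat sStp sB12 (rowI rowBas sRq sDc sStp sBnd sB12
    (rowJ rowBas rowTb sRq sDc rowCat sStp sBnd sB12))
  unfold chkM at hc
  rw [Bool.cond_eq_ite] at hc
  split_ifs at hc with hp
  rw [Bool.and_eq_true, Nat.ble_eq] at hp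
  obtain ⟨hW, hS⟩ := hp
  have hS' : e4 g + 7 ≤ S := hS
  have h0 := Nat.eq_of_beq_eq_true hc
  rw [hsm, Finset.sum_eq_zero_iff] at h0
  unfold bit at hm
  have m2 : pc (nat_lit 16) (pc (nat_lit 512) msk k) t2 ≠ 0 := fun e => hm (by rw [e, pc_zero])
  have m1 : pc (nat_lit 512) msk k ≠ 0 := fun e => m2 (by rw [e, pc_zero])
  have h3 := opt_zero (h0 k (mem_range.mpr hk)) m1
  rw [hfN, hsm, Finset.sum_eq_zero_iff, Nat.succ_eq_add_one,
    Nat.sub_add_cancel (Nat.pos_of_ne_zero m1)] at h3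
  have h4 := opt_zero (h3 t2 (mem_range.mpr ht2)) m2
  rw [hfN, hsm, Finset.sum_eq_zero_iff, Nat.succ_eq_add_one,
    Nat.sub_add_cancel (Nat.pos_of_ne_zero m2)] at h4
  intro t1 t y J hy ht1 hJ hz ht
  have hy' : zA (Nat.shiftRight (j2 g (bK k) t2) (nat_lit 5)) = y := by
    rw [hy]
    exact congrArg zA (Nat.shiftRight_eq_div_pow _ 5)
  have hz' : zA (Nat.shiftRight J (nat_lit 20)) = z := by
    rw [hz]
    exact congrArg zA (Nat.shiftRight_eq_div_pow _ 20)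
  rw [hy'] at h4
  have h5 := h4 t1 (mem_range.mpr ht1)
  unfold one1m at h5
  rw [← hJ, hz'] at h5
  have h6 := opt_zero h5 hm
  unfold one1 at h6
  rw [hfN, hfN, ← hJ, hz'] at h6
  have hr := (sB12 g S n W).2.2.1 c0 k
  have h7 := hG g S n W _ (eM g) _ (psI g) 31 (psJ g (noc5 J)) z y (bK k) t2 t1 hW hr (by omega)
    (hps _).2.1 (hy ▸ (rowTb.1 _).2)
  have h8 := sRq.2.2.2.2.2.2.2.2.1 S n (nI g z) _ _ _ _ (hV g S n W c0 cs k z J hW hS') h7
  have h9 := sDc.2.1 S n (nI g z) _ _ h8 (fun i s _ _ => ?_) (by omega) h6 t (j - c0) ht (by omega)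
  · rwa [Nat.add_sub_cancel' h1] at h9
  have a := ((sBnd g).2.1 _ (eM g) (hr.2 s)).2.2 (psI g) 28 (psJ g (noc5 J)) 31 (fun i => (hps i).1)
    (hps _).2.1 z y (bK k) t2 t1 i
  exact ((abs_add_le _ _).trans (add_le_add ((sBnd g).2.2.2.2.1 cs _ k z J i) a)).trans_lt
    ((Chk.two_lt le_rfl (by omega)).trans_le (pow_le_pow_right₀ (by norm_num) (by omega)))

open A4 in
theorem a4T (g : ℕ → ℕ) (x Ω : ℝ) (Bd : ℕ → List ℕ → ℕ → List ℕ → ℝ → ℝ → Prop) (a : List ℕ) (k : ℕ)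
    (b : List ℕ) (hx : 0 < x) (hΩ : 0 < Ω) (R : Rules x Bd) (hW : OkW g x) (ha : a.length = 9)
    (hA : ∀ b j, b < 6 → j < r9 g b → OkA g j b)
    (hK : ∀ t2 z, t2 < n2 g (bK k) → z < 16 → ∃ cs, ∀ j, j < r9 g (rB (kZ k)) → OkT g cs j k t2 z)
    (h3 : H3 g Bd a (r9 g (bA (cd a % 32))) (fun j => (lm g (dl j) a : ℝ) / Ω)) :
    Bd 18 a k b (x ^ nocc b) (gI g a k b / Ω) := by
  have hB := rowBas
  have hT := rowTb
  have hL := rowLin
  have hN := sBnd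
  by_cases hs : k < 35 ∧ a.length + b.length = 18 ∧ Shape a (rB (kZ k)) ∧ Shape b (kB k)
  swap
  · exact R.vac _ _ _ _ _ _ hs
  obtain ⟨hk, hl, sa, sb⟩ := hs
  have hb : b.length = 9 := by omega
  obtain ⟨ea, la⟩ := head hT sa ha
  obtain ⟨eb, -⟩ := head hT sb hb
  obtain ⟨-, -, -, -, t5, -, t7, t8, t9, t10⟩ := hT
  obtain ⟨-, -, -, l4, l5⟩ := hL
  obtain ⟨J, I, rfl, hJ⟩ : ∃ J I : List ℕ, b = J ++ I ∧ J.length = 5 :=
    ⟨b.take 5, b.drop 5, (List.take_append_drop 5 b).symm, by rw [List.length_take]; omega⟩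
  have hI : I.length = 4 := by
    rw [List.length_append] at hb
    omega
  have hm := (t10 _ _ sb).1
  obtain ⟨cJ, -, nJ⟩ := t8 J fun y hy => hm y (List.mem_append_left _ hy)
  obtain ⟨-, nI', -⟩ := t8 I fun y hy => hm y (List.mem_append_right _ hy)
  obtain ⟨c1, c2⟩ := t9 J I
  rw [hJ] at cJ c1
  have m1 : cd (J ++ I) % 2 ^ 25 = cd J := by omega
  have m2 : cd (J ++ I) / 2 ^ 25 = cd I := by omega
  rw [l4]
  rcases dec hB g (cd (J ++ I)) with h0 | ⟨t2, t1, t, y, z, e1, e2, e3, e4, e5, e6, e7, e8⟩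
  · simp only [lm, h0, mul_zero, sum_const_zero, Int.cast_zero, zero_div]
    exact R.zero _ _ _ _ _ (by positivity)
  rw [eb, ← (t5 k hk).2.1] at e1 e2 e4 e8
  rw [m1] at e4 e5
  rw [m2] at e7
  obtain ⟨cs, hK⟩ := hK t2 z e1 (e5 ▸ (rowTb.1 _).2)
  have p1 : ph g (cd (J ++ I)) = (phI g (nocc I) : ℤ) * phJ g (nocc J) := by
    rw [ph, m2, ← (t7 _).2.2, m1, nJ hJ, nI' hI]
  obtain ⟨-, -, u1, -, -, -⟩ := (hN g).2.2.2.2.2.2.1 (nocc I)
  obtain ⟨-, -, -, u2, -, -⟩ := (hN g).2.2.2.2.2.2.1 (nocc J)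
  have v1 : (0 : ℝ) < psI g (nocc I) := by exact_mod_cast u1
  have v2 : (0 : ℝ) < psJ g (nocc J) := by exact_mod_cast u2
  have w1 := (hW.2 (nocc I) (hI ▸ List.countP_le_length)).2
  have w2 := (hW.1 (nocc J) (hJ ▸ List.countP_le_length)).2
  refine R.mono _ _ _ _ _ _ _ ?_ (R.scale _ _ _ _ _ _
    (2 ^ 39 * ((phI g (nocc I) : ℝ) * phJ g (nocc J)) / (psI g (nocc I) * psJ g (nocc J))) _
    (by positivity) ?_ (h3 cs J I k z t hJ hI e7 hk))
  · rw [Int.cast_sum, sum_div, mul_sum]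
    refine sum_le_sum fun j hj => ?_
    rw [mem_range] at hj
    have q1 : (0 : ℝ) ≤ lm g (dl j) a := by
      exact_mod_cast lm_nonneg hB (hA _ j (ea ▸ la) hj)
    have q2 := hK j (ea ▸ hj) t1 t y _ e2 e3 e4 e5 e6
    rw [l5, ← e8, ← e7, nJ hJ, nI' hI] at q2
    have q3 : (psI g (nocc I) : ℝ) * psJ g (nocc J) *
        (lh g (fun s => Mx g k j s) (cd (J ++ I)) : ℤ) ≤ (sV g cs j k z (cd J) t : ℤ) := by
      exact_mod_cast sub_nonneg.1 (q2.trans_eq (sub_eq_add_neg _ _).symm)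
    have q4 : ((lh g (fun s => Mx g k j s) (cd (J ++ I)) : ℤ) : ℝ) ≤
        (sV g cs j k z (cd J) t : ℤ) / (psI g (nocc I) * psJ g (nocc J)) := by
      rwa [le_div_iff₀' (by positivity)]
    rw [lm.eq_1 g _ (J ++ I), p1]
    push_cast
    calc _ = (lm g (dl j) a : ℝ) / Ω * (phI g (nocc I) * phJ g (nocc J)) *
          (lh g (fun s => Mx g k j s) (cd (J ++ I)) : ℤ) := by ring
      _ ≤ (lm g (dl j) a : ℝ) / Ω * (phI g (nocc I) * phJ g (nocc J)) *
          ((sV g cs j k z (cd J) t : ℤ) / (psI g (nocc I) * psJ g (nocc J))) :=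
        mul_le_mul_of_nonneg_left q4 (by positivity)
      _ = _ := by field_simp
  · rw [mul_one, div_le_iff₀ (by positivity), c2, pow_add]
    calc _ = 2 ^ 19 * (phI g (nocc I) : ℝ) * (2 ^ 20 * phJ g (nocc J)) := by ring
      _ ≤ psI g (nocc I) * x ^ nocc I * (psJ g (nocc J) * x ^ nocc J) :=
        mul_le_mul w1 w2 (by positivity) (by positivity)
      _ = _ := by ring

theorem a5T (g : ℕ → ℕ) (x Ω s : ℝ) (hx : 0 < x) (hΩ : 0 < Ω) (hW : OkW g x)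
    (hA : ∀ b j, b < 6 → j < r9 g b → OkA g j b)
    (hK : ∀ k, k < 35 → flg g k = 1 → ∀ t2 z, t2 < n2 g (bK k) → z < 16 →
      ∃ cs, ∀ j, j < r9 g (rB (kZ k)) → OkT g cs j k t2 z) (h4f : flg g 4 = 1)
    (h5 : (gI g (List.replicate 9 20) 5 (List.replicate 9 20) : ℝ) ≤ Ω)
    (hs : s ≤ gI g (List.replicate 9 19) 4 (List.replicate 9 19) / Ω) : Cert x (gC g Ω) s := by
  have hBas := rowBas
  have hBnd := sBnd
  have h1 := rowA1 rowBas rowTb rowLin sSw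
  have h2 := rowA2 rowBas rowTb rowLin sSw
  have h3 := rowA3 rowBas rowTb rowLin sSw
  have hk : ∀ k, kk g k = 0 ∨ (kk g k = k + 1 ∧ k ≠ 4 ∧ flg g k = 1) :=
    hBas.2.2.2.2.2.2.2.2.2.2.2.1 g
  obtain ⟨M, hM⟩ := (hBnd g).2.2.2.2.2.1
  refine ⟨⟨max 0 (M / Ω), fun a k b => ?_⟩, fun a b => ?_, ?_, fun Bd hR hb => ?_⟩
  · unfold gC
    split_ifs
    · exact le_max_left _ _
    · exact le_max_of_le_right (div_le_div_of_nonneg_right (Int.cast_le.2 (hM a k b)) hΩ.le)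
  · rcases hk 4 with e | e
    · rw [gC, if_pos e]
    · exact absurd rfl e.2.1
  · unfold gC
    split_ifs
    · exact zero_le_one
    · exact (div_le_one hΩ).2 h5
  have key : ∀ (a : List ℕ) (k : ℕ) (b : List ℕ), a.length = 9 → k < 35 → flg g k = 1 →
      Bd 18 a k b (x ^ nocc b) (gI g a k b / Ω) := fun a k b ha hk35 hf => by
    refine a4T g x Ω Bd a k b hx hΩ hR hW ha hA (hK k hk35 hf) (h3 _ _ _ _ _ _ hR (h2 _ _ _ _ _ _ hx hR hW
      (h1 _ _ _ _ _ _ hx hR hW (fun e => by simp [e] at ha) fun p k' hp _ => ?_)))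
    refine hR.mono _ _ _ _ _ _ _ (le_of_eq ?_) (hb p k' a hp)
    rcases hk k' with e | e
    · simp [gC, oS, e]
    · simp only [gC, oS, e.1, Nat.add_one_ne_zero, if_false, Nat.add_sub_cancel, gI]
      push_cast
      rw [sum_div]
      exact sum_congr rfl fun j _ => by ring
  refine ⟨fun a k b ha _ => ?_, ?_⟩
  · by_cases h35 : k < 35
    · rcases hk k with e | e
      · rw [gC, if_pos e]
        exact hR.zero _ _ _ _ _ (pow_pos hx _).le
      · rw [gC, if_neg (by rw [e.1]; exact Nat.add_one_ne_zero _)]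
        exact key a k b ha h35 e.2.2
    · exact hR.vac _ _ _ _ _ _ fun h => h35 h.1
  · have := key (List.replicate 9 19) 4 (List.replicate 9 19) rfl (by norm_num) h4f
    rw [show nocc (List.replicate 9 19) = 0 by decide, pow_zero] at this
    exact hR.mono _ _ _ _ _ _ _ hs this

end Pool.Agent.MP_6a06cd_co.KL
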