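import Pool.Agent.MP_6a06cd_co.KM.E020

namespace Pool.Agent.MP_6a06cd_co.KL.D

set_option maxRecDepth 100000 in
theorem c36 : K.chkM (K.get dat) 190 6 1140 24 8 m8 = true := by decide +kernel

end Pool.Agent.MP_6a06cd_co.KL.D
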