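import Pool.Agent.MP_6a06cd_co.KL.Ex

/-! The check of a narrow strip in four parts, by the two flags of the state. -/

namespace Pool.Agent.MP_6a06cd_co.KL.X
noncomputable section

def okP (f : Nat → Bool) (q x : Nat) : Bool :=
  cond (Nat.beq (Nat.land (Nat.shiftRight x (nat_lit 64)) (nat_lit 3)) q) (f x) true

def chkP (n lo num den : Nat) (t : BT) (q : Nat) : Bool :=
  okT (okP (okE n den (val n lo num den (lk n den t) (Nat.mul (nat_lit 2) n))) q) t

def chkE (n lo num den : Nat) (t : BT) (a b : Nat) : Bool :=
  cond (Nat.ble (Nat.succ b) (pw (nat_lit 44)))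
    (ok2 n den (val n lo num den (lk n den t) (Nat.mul (nat_lit 2) n) (nat_lit 0)) a b) false

theorem okL_parts (f : Nat → Bool) (fuel : Nat) :
    ∀ x, (∀ q, q < 4 → okL (okP f q) fuel x = true) → okL f fuel x = true := by
  induction fuel with
  | zero => exact fun _ _ => rfl
  | succ m ih =>
    intro x h
    have e : ∀ g : Nat → Bool, okL g (m + 1) x = cond (Nat.beq x (nat_lit 0)) true
        (cond (g x) (okL g m (Nat.shiftRight x (nat_lit 160))) false) := fun _ => rfl
    rw [e]
    cases h0 : Nat.beq x (nat_lit 0)
    · have a : ∀ q, q < 4 → okP f q x = true ∧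
          okL (okP f q) m (Nat.shiftRight x (nat_lit 160)) = true := fun q hq => by
        have := h q hq
        rw [e, h0, cond_false] at this
        cases h1 : okP f q x
        · rw [h1] at this
          exact absurd this Bool.false_ne_true
        · rw [h1] at this
          exact ⟨rfl, this⟩
      have b := (a _ (Nat.lt_succ_of_le (Nat.and_le_right (n := Nat.shiftRight x (nat_lit 64))
        (m := 3)))).1
      have c : f x = true := by
        unfold okP at b
        rwa [show Nat.beq (Nat.land (Nat.shiftRight x (nat_lit 64)) (nat_lit 3))
          (Nat.shiftRight x (nat_lit 64) &&& 3) = true from Nat.beq_refl _, cond_true] at b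
      rw [cond_false, c, cond_true]
      exact ih _ fun q hq => (a q hq).2
    · rfl

theorem okT_parts (f : Nat → Bool) (t : BT) :
    (∀ q, q < 4 → okT (okP f q) t = true) → okT f t = true := by
  induction t with
  | lf x => exact okL_parts f (nat_lit 40) x
  | nd l r il ir =>
    intro h
    have e : ∀ g : Nat → Bool, okT g (.nd l r) = cond (okT g l) (okT g r) false := fun _ => rfl
    have a : ∀ q, q < 4 → okT (okP f q) l = true ∧ okT (okP f q) r = true := fun q hq => by
      have := h q hq
      rw [e] at this
      cases h1 : okT (okP f q) l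
      · rw [h1] at this
        exact absurd this Bool.false_ne_true
      · rw [h1] at this
        exact ⟨rfl, this⟩
    rw [e, il fun q hq => (a q hq).1, cond_true]
    exact ir fun q hq => (a q hq).2

theorem chk_parts {n lo num den : Nat} {t : BT} {a b : Nat} (h0 : chkP n lo num den t 0 = true)
    (h1 : chkP n lo num den t 1 = true) (h2 : chkP n lo num den t 2 = true)
    (h3 : chkP n lo num den t 3 = true) (h : chkE n lo num den t a b = true) :
    chk n lo num den t a b = true := by
  unfold chk
  rw [okT_parts _ t fun q hq => match q, hq with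
    | 0, _ => h0
    | 1, _ => h1
    | 2, _ => h2
    | 3, _ => h3, cond_true]
  exact h

end
end Pool.Agent.MP_6a06cd_co.KL.X
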