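import Pool.Agent.MP_6a06cd_co.KM.XP1
import Pool.Agent.MP_6a06cd_co.KM.XP3

namespace Pool.Agent.MP_6a06cd_co.KL.X

theorem p4 : chkE (nat_lit 8) (nat_lit 0) (nat_lit 2000) (nat_lit 8011) t16 (nat_lit 3560567084) (nat_lit 3560569642) = true := by decide +kernel

theorem c16 : chk (nat_lit 8) (nat_lit 0) (nat_lit 2000) (nat_lit 8011) t16 (nat_lit 3560567084) (nat_lit 3560569642) = true :=
  chk_parts p0 p1 p2 p3 p4

end Pool.Agent.MP_6a06cd_co.KL.X
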