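import Pool.Agent.MP_6a06cd_co.KM.Chk2
import Pool.Agent.MP_6a06cd_co.KM.E122
import Pool.Agent.MP_6a06cd_co.KM.E123
import Pool.Agent.MP_6a06cd_co.KM.E124
import Pool.Agent.MP_6a06cd_co.KM.E125
import Pool.Agent.MP_6a06cd_co.KM.E126
import Pool.Agent.MP_6a06cd_co.KM.E127
import Pool.Agent.MP_6a06cd_co.KM.E128
import Pool.Agent.MP_6a06cd_co.KM.E129
import Pool.Agent.MP_6a06cd_co.KM.E130
import Pool.Agent.MP_6a06cd_co.KM.E131
import Pool.Agent.MP_6a06cd_co.KM.E132
import Pool.Agent.MP_6a06cd_co.KM.E133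
import Pool.Agent.MP_6a06cd_co.KM.E134
import Pool.Agent.MP_6a06cd_co.KM.E135
import Pool.Agent.MP_6a06cd_co.KM.E136
import Pool.Agent.MP_6a06cd_co.KM.E137
import Pool.Agent.MP_6a06cd_co.KM.XC
import Pool.Agent.MP_6a06cd_co.KM.XD
import Pool.Agent.MP_6a06cd_co.KM.CA

/-! The certificate is valid. -/

namespace Pool.Agent.MP_6a06cd_co.KL.D

open K
open scoped NNReal ENNReal

theorem k0 {k t z : ℕ} (hk : k < 35) (ht : t < n2 (get dat) (bK k)) (h : bit m0 k t z ≠ 0) (j : ℕ)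
    (hj : j < 18) : OkT (get dat) 0 j k t z := by
  by_cases h0 : j < 6
  · exact chkM_ok c0 hk ht h j (by omega) (by omega)
  by_cases h1 : j < 12
  · exact chkM_ok c1 hk ht h j (by omega) (by omega)
  exact chkM_ok c2 hk ht h j (by omega) (by omega)

theorem k1 {k t z : ℕ} (hk : k < 35) (ht : t < n2 (get dat) (bK k)) (h : bit m1 k t z ≠ 0) (j : ℕ)
    (hj : j < 18) : OkT (get dat) 1 j k t z := by
  by_cases h0 : j < 6
  · exact chkM_ok c3 hk ht h j (by omega) (by omega)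
  by_cases h1 : j < 12
  · exact chkM_ok c4 hk ht h j (by omega) (by omega)
  exact chkM_ok c5 hk ht h j (by omega) (by omega)

theorem k2 {k t z : ℕ} (hk : k < 35) (ht : t < n2 (get dat) (bK k)) (h : bit m2 k t z ≠ 0) (j : ℕ)
    (hj : j < 18) : OkT (get dat) 2 j k t z := by
  by_cases h0 : j < 6
  · exact chkM_ok c6 hk ht h j (by omega) (by omega)
  by_cases h1 : j < 12
  · exact chkM_ok c7 hk ht h j (by omega) (by omega)
  exact chkM_ok c8 hk ht h j (by omega) (by omega)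

theorem k3 {k t z : ℕ} (hk : k < 35) (ht : t < n2 (get dat) (bK k)) (h : bit m3 k t z ≠ 0) (j : ℕ)
    (hj : j < 18) : OkT (get dat) 3 j k t z := by
  by_cases h0 : j < 6
  · exact chkM_ok c9 hk ht h j (by omega) (by omega)
  by_cases h1 : j < 12
  · exact chkM_ok c10 hk ht h j (by omega) (by omega)
  exact chkM_ok c11 hk ht h j (by omega) (by omega)

theorem k4 {k t z : ℕ} (hk : k < 35) (ht : t < n2 (get dat) (bK k)) (h : bit m4 k t z ≠ 0) (j : ℕ)
    (hj : j < 24) : OkT (get dat) 4 j k t z := by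
  by_cases h0 : j < 6
  · exact chkM_ok c12 hk ht h j (by omega) (by omega)
  by_cases h1 : j < 12
  · exact chkM_ok c13 hk ht h j (by omega) (by omega)
  by_cases h2 : j < 18
  · exact chkM_ok c14 hk ht h j (by omega) (by omega)
  exact chkM_ok c15 hk ht h j (by omega) (by omega)

theorem k5 {k t z : ℕ} (hk : k < 35) (ht : t < n2 (get dat) (bK k)) (h : bit m5 k t z ≠ 0) (j : ℕ)
    (hj : j < 24) : OkT (get dat) 5 j k t z := by
  by_cases h0 : j < 6
  · exact chkM_ok c16 hk ht h j (by omega) (by omega)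
  by_cases h1 : j < 12
  · exact chkM_ok c17 hk ht h j (by omega) (by omega)
  by_cases h2 : j < 18
  · exact chkM_ok c18 hk ht h j (by omega) (by omega)
  exact chkM_ok c19 hk ht h j (by omega) (by omega)

theorem k6 {k t z : ℕ} (hk : k < 35) (ht : t < n2 (get dat) (bK k)) (h : bit m6 k t z ≠ 0) (j : ℕ)
    (hj : j < 34) : OkT (get dat) 6 j k t z := by
  by_cases h0 : j < 6
  · exact chkM_ok c20 hk ht h j (by omega) (by omega)
  by_cases h1 : j < 12
  · exact chkM_ok c21 hk ht h j (by omega) (by omega)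
  by_cases h2 : j < 18
  · exact chkM_ok c22 hk ht h j (by omega) (by omega)
  by_cases h3 : j < 24
  · exact chkM_ok c23 hk ht h j (by omega) (by omega)
  by_cases h4 : j < 30
  · exact chkM_ok c24 hk ht h j (by omega) (by omega)
  exact chkM_ok c25 hk ht h j (by omega) (by omega)

theorem k7 {k t z : ℕ} (hk : k < 35) (ht : t < n2 (get dat) (bK k)) (h : bit m7 k t z ≠ 0) (j : ℕ)
    (hj : j < 34) : OkT (get dat) 7 j k t z := by
  by_cases h0 : j < 6
  · exact chkM_ok c26 hk ht h j (by omega) (by omega)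
  by_cases h1 : j < 12
  · exact chkM_ok c27 hk ht h j (by omega) (by omega)
  by_cases h2 : j < 18
  · exact chkM_ok c28 hk ht h j (by omega) (by omega)
  by_cases h3 : j < 24
  · exact chkM_ok c29 hk ht h j (by omega) (by omega)
  by_cases h4 : j < 30
  · exact chkM_ok c30 hk ht h j (by omega) (by omega)
  exact chkM_ok c31 hk ht h j (by omega) (by omega)

theorem k8 {k t z : ℕ} (hk : k < 35) (ht : t < n2 (get dat) (bK k)) (h : bit m8 k t z ≠ 0) (j : ℕ)
    (hj : j < 34) : OkT (get dat) 8 j k t z := by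
  by_cases h0 : j < 6
  · exact chkM_ok c32 hk ht h j (by omega) (by omega)
  by_cases h1 : j < 12
  · exact chkM_ok c33 hk ht h j (by omega) (by omega)
  by_cases h2 : j < 18
  · exact chkM_ok c34 hk ht h j (by omega) (by omega)
  by_cases h3 : j < 24
  · exact chkM_ok c35 hk ht h j (by omega) (by omega)
  by_cases h4 : j < 30
  · exact chkM_ok c36 hk ht h j (by omega) (by omega)
  exact chkM_ok c37 hk ht h j (by omega) (by omega)

theorem k9 {k t z : ℕ} (hk : k < 35) (ht : t < n2 (get dat) (bK k)) (h : bit m9 k t z ≠ 0) (j : ℕ)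
    (hj : j < 34) : OkT (get dat) 9 j k t z := by
  by_cases h0 : j < 6
  · exact chkM_ok c38 hk ht h j (by omega) (by omega)
  by_cases h1 : j < 12
  · exact chkM_ok c39 hk ht h j (by omega) (by omega)
  by_cases h2 : j < 18
  · exact chkM_ok c40 hk ht h j (by omega) (by omega)
  by_cases h3 : j < 24
  · exact chkM_ok c41 hk ht h j (by omega) (by omega)
  by_cases h4 : j < 30
  · exact chkM_ok c42 hk ht h j (by omega) (by omega)
  exact chkM_ok c43 hk ht h j (by omega) (by omega)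

theorem k10 {k t z : ℕ} (hk : k < 35) (ht : t < n2 (get dat) (bK k)) (h : bit m10 k t z ≠ 0) (j : ℕ)
    (hj : j < 34) : OkT (get dat) 10 j k t z := by
  by_cases h0 : j < 6
  · exact chkM_ok c44 hk ht h j (by omega) (by omega)
  by_cases h1 : j < 12
  · exact chkM_ok c45 hk ht h j (by omega) (by omega)
  by_cases h2 : j < 18
  · exact chkM_ok c46 hk ht h j (by omega) (by omega)
  by_cases h3 : j < 24
  · exact chkM_ok c47 hk ht h j (by omega) (by omega)
  by_cases h4 : j < 30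
  · exact chkM_ok c48 hk ht h j (by omega) (by omega)
  exact chkM_ok c49 hk ht h j (by omega) (by omega)

theorem k11 {k t z : ℕ} (hk : k < 35) (ht : t < n2 (get dat) (bK k)) (h : bit m11 k t z ≠ 0) (j : ℕ)
    (hj : j < 34) : OkT (get dat) 11 j k t z := by
  by_cases h0 : j < 6
  · exact chkM_ok c50 hk ht h j (by omega) (by omega)
  by_cases h1 : j < 12
  · exact chkM_ok c51 hk ht h j (by omega) (by omega)
  by_cases h2 : j < 18
  · exact chkM_ok c52 hk ht h j (by omega) (by omega)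
  by_cases h3 : j < 24
  · exact chkM_ok c53 hk ht h j (by omega) (by omega)
  by_cases h4 : j < 30
  · exact chkM_ok c54 hk ht h j (by omega) (by omega)
  exact chkM_ok c55 hk ht h j (by omega) (by omega)

theorem k12 {k t z : ℕ} (hk : k < 35) (ht : t < n2 (get dat) (bK k)) (h : bit m12 k t z ≠ 0) (j : ℕ)
    (hj : j < 34) : OkT (get dat) 12 j k t z := by
  by_cases h0 : j < 6
  · exact chkM_ok c56 hk ht h j (by omega) (by omega)
  by_cases h1 : j < 12
  · exact chkM_ok c57 hk ht h j (by omega) (by omega)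
  by_cases h2 : j < 18
  · exact chkM_ok c58 hk ht h j (by omega) (by omega)
  by_cases h3 : j < 24
  · exact chkM_ok c59 hk ht h j (by omega) (by omega)
  by_cases h4 : j < 30
  · exact chkM_ok c60 hk ht h j (by omega) (by omega)
  exact chkM_ok c61 hk ht h j (by omega) (by omega)

theorem k13 {k t z : ℕ} (hk : k < 35) (ht : t < n2 (get dat) (bK k)) (h : bit m13 k t z ≠ 0) (j : ℕ)
    (hj : j < 34) : OkT (get dat) 13 j k t z := by
  by_cases h0 : j < 6
  · exact chkM_ok c62 hk ht h j (by omega) (by omega)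
  by_cases h1 : j < 12
  · exact chkM_ok c63 hk ht h j (by omega) (by omega)
  by_cases h2 : j < 18
  · exact chkM_ok c64 hk ht h j (by omega) (by omega)
  by_cases h3 : j < 24
  · exact chkM_ok c65 hk ht h j (by omega) (by omega)
  by_cases h4 : j < 30
  · exact chkM_ok c66 hk ht h j (by omega) (by omega)
  exact chkM_ok c67 hk ht h j (by omega) (by omega)

theorem k14 {k t z : ℕ} (hk : k < 35) (ht : t < n2 (get dat) (bK k)) (h : bit m14 k t z ≠ 0) (j : ℕ)
    (hj : j < 34) : OkT (get dat) 14 j k t z := by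
  by_cases h0 : j < 6
  · exact chkM_ok c68 hk ht h j (by omega) (by omega)
  by_cases h1 : j < 12
  · exact chkM_ok c69 hk ht h j (by omega) (by omega)
  by_cases h2 : j < 18
  · exact chkM_ok c70 hk ht h j (by omega) (by omega)
  by_cases h3 : j < 24
  · exact chkM_ok c71 hk ht h j (by omega) (by omega)
  by_cases h4 : j < 30
  · exact chkM_ok c72 hk ht h j (by omega) (by omega)
  exact chkM_ok c73 hk ht h j (by omega) (by omega)

theorem k15 {k t z : ℕ} (hk : k < 35) (ht : t < n2 (get dat) (bK k)) (h : bit m15 k t z ≠ 0) (j : ℕ)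
    (hj : j < 34) : OkT (get dat) 15 j k t z := by
  by_cases h0 : j < 6
  · exact chkM_ok c74 hk ht h j (by omega) (by omega)
  by_cases h1 : j < 12
  · exact chkM_ok c75 hk ht h j (by omega) (by omega)
  by_cases h2 : j < 18
  · exact chkM_ok c76 hk ht h j (by omega) (by omega)
  by_cases h3 : j < 24
  · exact chkM_ok c77 hk ht h j (by omega) (by omega)
  by_cases h4 : j < 30
  · exact chkM_ok c78 hk ht h j (by omega) (by omega)
  exact chkM_ok c79 hk ht h j (by omega) (by omega)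

theorem k16 {k t z : ℕ} (hk : k < 35) (ht : t < n2 (get dat) (bK k)) (h : bit m16 k t z ≠ 0) (j : ℕ)
    (hj : j < 22) : OkT (get dat) 16 j k t z := by
  by_cases h0 : j < 6
  · exact chkM_ok c80 hk ht h j (by omega) (by omega)
  by_cases h1 : j < 12
  · exact chkM_ok c81 hk ht h j (by omega) (by omega)
  by_cases h2 : j < 18
  · exact chkM_ok c82 hk ht h j (by omega) (by omega)
  exact chkM_ok c83 hk ht h j (by omega) (by omega)

theorem k17 {k t z : ℕ} (hk : k < 35) (ht : t < n2 (get dat) (bK k)) (h : bit m17 k t z ≠ 0) (j : ℕ)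
    (hj : j < 22) : OkT (get dat) 17 j k t z := by
  by_cases h0 : j < 6
  · exact chkM_ok c84 hk ht h j (by omega) (by omega)
  by_cases h1 : j < 12
  · exact chkM_ok c85 hk ht h j (by omega) (by omega)
  by_cases h2 : j < 18
  · exact chkM_ok c86 hk ht h j (by omega) (by omega)
  exact chkM_ok c87 hk ht h j (by omega) (by omega)

theorem k18 {k t z : ℕ} (hk : k < 35) (ht : t < n2 (get dat) (bK k)) (h : bit m18 k t z ≠ 0) (j : ℕ)
    (hj : j < 22) : OkT (get dat) 18 j k t z := by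
  by_cases h0 : j < 6
  · exact chkM_ok c88 hk ht h j (by omega) (by omega)
  by_cases h1 : j < 12
  · exact chkM_ok c89 hk ht h j (by omega) (by omega)
  by_cases h2 : j < 18
  · exact chkM_ok c90 hk ht h j (by omega) (by omega)
  exact chkM_ok c91 hk ht h j (by omega) (by omega)

theorem k19 {k t z : ℕ} (hk : k < 35) (ht : t < n2 (get dat) (bK k)) (h : bit m19 k t z ≠ 0) (j : ℕ)
    (hj : j < 22) : OkT (get dat) 19 j k t z := by
  by_cases h0 : j < 6
  · exact chkM_ok c92 hk ht h j (by omega) (by omega)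
  by_cases h1 : j < 12
  · exact chkM_ok c93 hk ht h j (by omega) (by omega)
  by_cases h2 : j < 18
  · exact chkM_ok c94 hk ht h j (by omega) (by omega)
  exact chkM_ok c95 hk ht h j (by omega) (by omega)

theorem k20 {k t z : ℕ} (hk : k < 35) (ht : t < n2 (get dat) (bK k)) (h : bit m20 k t z ≠ 0) (j : ℕ)
    (hj : j < 22) : OkT (get dat) 20 j k t z := by
  by_cases h0 : j < 6
  · exact chkM_ok c96 hk ht h j (by omega) (by omega)
  by_cases h1 : j < 12
  · exact chkM_ok c97 hk ht h j (by omega) (by omega)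
  by_cases h2 : j < 18
  · exact chkM_ok c98 hk ht h j (by omega) (by omega)
  exact chkM_ok c99 hk ht h j (by omega) (by omega)

theorem k21 {k t z : ℕ} (hk : k < 35) (ht : t < n2 (get dat) (bK k)) (h : bit m21 k t z ≠ 0) (j : ℕ)
    (hj : j < 24) : OkT (get dat) 21 j k t z := by
  by_cases h0 : j < 6
  · exact chkM_ok c100 hk ht h j (by omega) (by omega)
  by_cases h1 : j < 12
  · exact chkM_ok c101 hk ht h j (by omega) (by omega)
  by_cases h2 : j < 18
  · exact chkM_ok c102 hk ht h j (by omega) (by omega)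
  exact chkM_ok c103 hk ht h j (by omega) (by omega)

theorem k22 {k t z : ℕ} (hk : k < 35) (ht : t < n2 (get dat) (bK k)) (h : bit m22 k t z ≠ 0) (j : ℕ)
    (hj : j < 24) : OkT (get dat) 22 j k t z := by
  by_cases h0 : j < 6
  · exact chkM_ok c104 hk ht h j (by omega) (by omega)
  by_cases h1 : j < 12
  · exact chkM_ok c105 hk ht h j (by omega) (by omega)
  by_cases h2 : j < 18
  · exact chkM_ok c106 hk ht h j (by omega) (by omega)
  exact chkM_ok c107 hk ht h j (by omega) (by omega)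

theorem k23 {k t z : ℕ} (hk : k < 35) (ht : t < n2 (get dat) (bK k)) (h : bit m23 k t z ≠ 0) (j : ℕ)
    (hj : j < 24) : OkT (get dat) 23 j k t z := by
  by_cases h0 : j < 6
  · exact chkM_ok c108 hk ht h j (by omega) (by omega)
  by_cases h1 : j < 12
  · exact chkM_ok c109 hk ht h j (by omega) (by omega)
  by_cases h2 : j < 18
  · exact chkM_ok c110 hk ht h j (by omega) (by omega)
  exact chkM_ok c111 hk ht h j (by omega) (by omega)

theorem k24 {k t z : ℕ} (hk : k < 35) (ht : t < n2 (get dat) (bK k)) (h : bit m24 k t z ≠ 0) (j : ℕ)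
    (hj : j < 24) : OkT (get dat) 24 j k t z := by
  by_cases h0 : j < 6
  · exact chkM_ok c112 hk ht h j (by omega) (by omega)
  by_cases h1 : j < 12
  · exact chkM_ok c113 hk ht h j (by omega) (by omega)
  by_cases h2 : j < 18
  · exact chkM_ok c114 hk ht h j (by omega) (by omega)
  exact chkM_ok c115 hk ht h j (by omega) (by omega)

theorem k25 {k t z : ℕ} (hk : k < 35) (ht : t < n2 (get dat) (bK k)) (h : bit m25 k t z ≠ 0) (j : ℕ)
    (hj : j < 24) : OkT (get dat) 25 j k t z := by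
  by_cases h0 : j < 6
  · exact chkM_ok c116 hk ht h j (by omega) (by omega)
  by_cases h1 : j < 12
  · exact chkM_ok c117 hk ht h j (by omega) (by omega)
  by_cases h2 : j < 18
  · exact chkM_ok c118 hk ht h j (by omega) (by omega)
  exact chkM_ok c119 hk ht h j (by omega) (by omega)

theorem k26 {k t z : ℕ} (hk : k < 35) (ht : t < n2 (get dat) (bK k)) (h : bit m26 k t z ≠ 0) (j : ℕ)
    (hj : j < 24) : OkT (get dat) 26 j k t z := by
  by_cases h0 : j < 6
  · exact chkM_ok c120 hk ht h j (by omega) (by omega)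
  by_cases h1 : j < 12
  · exact chkM_ok c121 hk ht h j (by omega) (by omega)
  by_cases h2 : j < 18
  · exact chkM_ok c122 hk ht h j (by omega) (by omega)
  exact chkM_ok c123 hk ht h j (by omega) (by omega)

theorem k27 {k t z : ℕ} (hk : k < 35) (ht : t < n2 (get dat) (bK k)) (h : bit m27 k t z ≠ 0) (j : ℕ)
    (hj : j < 24) : OkT (get dat) 27 j k t z := by
  by_cases h0 : j < 6
  · exact chkM_ok c124 hk ht h j (by omega) (by omega)
  by_cases h1 : j < 12
  · exact chkM_ok c125 hk ht h j (by omega) (by omega)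
  by_cases h2 : j < 18
  · exact chkM_ok c126 hk ht h j (by omega) (by omega)
  exact chkM_ok c127 hk ht h j (by omega) (by omega)

theorem k28 {k t z : ℕ} (hk : k < 35) (ht : t < n2 (get dat) (bK k)) (h : bit m28 k t z ≠ 0) (j : ℕ)
    (hj : j < 1) : OkT (get dat) 28 j k t z := by
  exact chkM_ok c128 hk ht h j (by omega) (by omega)

theorem k29 {k t z : ℕ} (hk : k < 35) (ht : t < n2 (get dat) (bK k)) (h : bit m29 k t z ≠ 0) (j : ℕ)
    (hj : j < 1) : OkT (get dat) 29 j k t z := by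
  exact chkM_ok c129 hk ht h j (by omega) (by omega)

theorem k30 {k t z : ℕ} (hk : k < 35) (ht : t < n2 (get dat) (bK k)) (h : bit m30 k t z ≠ 0) (j : ℕ)
    (hj : j < 1) : OkT (get dat) 30 j k t z := by
  exact chkM_ok c130 hk ht h j (by omega) (by omega)

theorem k31 {k t z : ℕ} (hk : k < 35) (ht : t < n2 (get dat) (bK k)) (h : bit m31 k t z ≠ 0) (j : ℕ)
    (hj : j < 1) : OkT (get dat) 31 j k t z := by
  exact chkM_ok c131 hk ht h j (by omega) (by omega)

theorem k32 {k t z : ℕ} (hk : k < 35) (ht : t < n2 (get dat) (bK k)) (h : bit m32 k t z ≠ 0) (j : ℕ)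
    (hj : j < 1) : OkT (get dat) 32 j k t z := by
  exact chkM_ok c132 hk ht h j (by omega) (by omega)

theorem k33 {k t z : ℕ} (hk : k < 35) (ht : t < n2 (get dat) (bK k)) (h : bit m33 k t z ≠ 0) (j : ℕ)
    (hj : j < 1) : OkT (get dat) 33 j k t z := by
  exact chkM_ok c133 hk ht h j (by omega) (by omega)

theorem k34 {k t z : ℕ} (hk : k < 35) (ht : t < n2 (get dat) (bK k)) (h : bit m34 k t z ≠ 0) (j : ℕ)
    (hj : j < 1) : OkT (get dat) 34 j k t z := by
  exact chkM_ok c134 hk ht h j (by omega) (by omega)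

theorem k35 {k t z : ℕ} (hk : k < 35) (ht : t < n2 (get dat) (bK k)) (h : bit m35 k t z ≠ 0) (j : ℕ)
    (hj : j < 1) : OkT (get dat) 35 j k t z := by
  exact chkM_ok c135 hk ht h j (by omega) (by omega)

theorem k36 {k t z : ℕ} (hk : k < 35) (ht : t < n2 (get dat) (bK k)) (h : bit m36 k t z ≠ 0) (j : ℕ)
    (hj : j < 1) : OkT (get dat) 36 j k t z := by
  exact chkM_ok c136 hk ht h j (by omega) (by omega)

theorem k37 {k t z : ℕ} (hk : k < 35) (ht : t < n2 (get dat) (bK k)) (h : bit m37 k t z ≠ 0) (j : ℕ)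
    (hj : j < 1) : OkT (get dat) 37 j k t z := by
  exact chkM_ok c137 hk ht h j (by omega) (by omega)

theorem cov0 : ∀ k ∈ [6, 7, 22, 23, 24, 25], ∀ t < 32, t < n2 (get dat) (bK k) → ∀ z < 16,
    bit m0 k t z ≠ 0 ∨ bit m1 k t z ≠ 0 ∨ bit m2 k t z ≠ 0 ∨ bit m3 k t z ≠ 0 := by
  decide +kernel

theorem cov1 : ∀ k ∈ [8, 9, 10, 13], ∀ t < 32, t < n2 (get dat) (bK k) → ∀ z < 16,
    bit m4 k t z ≠ 0 ∨ bit m5 k t z ≠ 0 := by
  decide +kernel

theorem cov2 : ∀ k ∈ [26, 27, 28, 29, 30, 34], ∀ t < 32, t < n2 (get dat) (bK k) → ∀ z < 16,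
    bit m6 k t z ≠ 0 ∨ bit m7 k t z ≠ 0 ∨ bit m8 k t z ≠ 0 ∨ bit m9 k t z ≠ 0 ∨ bit m10 k t z ≠ 0 ∨ bit m11 k t z ≠ 0 ∨ bit m12 k t z ≠ 0 ∨ bit m13 k t z ≠ 0 ∨ bit m14 k t z ≠ 0 ∨ bit m15 k t z ≠ 0 := by
  decide +kernel

theorem cov3 : ∀ k ∈ [31, 32], ∀ t < 32, t < n2 (get dat) (bK k) → ∀ z < 16,
    bit m16 k t z ≠ 0 ∨ bit m17 k t z ≠ 0 ∨ bit m18 k t z ≠ 0 ∨ bit m19 k t z ≠ 0 ∨ bit m20 k t z ≠ 0 := by
  decide +kernel

theorem cov4 : ∀ k ∈ [11, 15, 16, 17], ∀ t < 32, t < n2 (get dat) (bK k) → ∀ z < 16,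
    bit m21 k t z ≠ 0 ∨ bit m22 k t z ≠ 0 ∨ bit m23 k t z ≠ 0 ∨ bit m24 k t z ≠ 0 ∨ bit m25 k t z ≠ 0 ∨ bit m26 k t z ≠ 0 ∨ bit m27 k t z ≠ 0 := by
  decide +kernel

theorem cov5 : ∀ k ∈ [0, 1, 4, 12, 14, 18], ∀ t < 32, t < n2 (get dat) (bK k) → ∀ z < 16,
    bit m28 k t z ≠ 0 ∨ bit m29 k t z ≠ 0 ∨ bit m30 k t z ≠ 0 ∨ bit m31 k t z ≠ 0 ∨ bit m32 k t z ≠ 0 := by
  decide +kernel

theorem cov6 : ∀ k ∈ [2, 3, 5, 19, 20, 21], ∀ t < 32, t < n2 (get dat) (bK k) → ∀ z < 16,
    bit m33 k t z ≠ 0 ∨ bit m34 k t z ≠ 0 ∨ bit m35 k t z ≠ 0 ∨ bit m36 k t z ≠ 0 ∨ bit m37 k t z ≠ 0 := by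
  decide +kernel

set_option synthInstance.maxSize 4000 in
theorem cover : ∀ k < 35, n2 (get dat) (bK k) ≤ 32 ∧ (flg (get dat) k = 1 →
    (k ∈ [6, 7, 22, 23, 24, 25] ∧ r9 (get dat) (rB (kZ k)) = 18) ∨
    (k ∈ [8, 9, 10, 13] ∧ r9 (get dat) (rB (kZ k)) = 24) ∨
    (k ∈ [26, 27, 28, 29, 30, 34] ∧ r9 (get dat) (rB (kZ k)) = 34) ∨
    (k ∈ [31, 32] ∧ r9 (get dat) (rB (kZ k)) = 22) ∨
    (k ∈ [11, 15, 16, 17] ∧ r9 (get dat) (rB (kZ k)) = 24) ∨
    (k ∈ [0, 1, 4, 12, 14, 18] ∧ r9 (get dat) (rB (kZ k)) = 1) ∨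
    (k ∈ [2, 3, 5, 19, 20, 21] ∧ r9 (get dat) (rB (kZ k)) = 1)) := by
  decide +kernel

theorem okK (k : ℕ) (hk : k < 35) (h : flg (get dat) k = 1) (t z : ℕ) (ht : t < n2 (get dat) (bK k))
    (hz : z < 16) : ∃ cs, ∀ j, j < r9 (get dat) (rB (kZ k)) → OkT (get dat) cs j k t z := by
  obtain ⟨a, b⟩ := cover k hk
  rcases b h with ⟨b, e⟩ | ⟨b, e⟩ | ⟨b, e⟩ | ⟨b, e⟩ | ⟨b, e⟩ | ⟨b, e⟩ | ⟨b, e⟩ <;> rw [e]
  · rcases cov0 k b t (by omega) ht z hz with c | c | c | c
    exacts [⟨_, k0 hk ht c⟩, ⟨_, k1 hk ht c⟩, ⟨_, k2 hk ht c⟩, ⟨_, k3 hk ht c⟩]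
  · rcases cov1 k b t (by omega) ht z hz with c | c
    exacts [⟨_, k4 hk ht c⟩, ⟨_, k5 hk ht c⟩]
  · rcases cov2 k b t (by omega) ht z hz with c | c | c | c | c | c | c | c | c | c
    exacts [⟨_, k6 hk ht c⟩, ⟨_, k7 hk ht c⟩, ⟨_, k8 hk ht c⟩, ⟨_, k9 hk ht c⟩, ⟨_, k10 hk ht c⟩, ⟨_, k11 hk ht c⟩, ⟨_, k12 hk ht c⟩, ⟨_, k13 hk ht c⟩, ⟨_, k14 hk ht c⟩, ⟨_, k15 hk ht c⟩]
  · rcases cov3 k b t (by omega) ht z hz with c | c | c | c | c
    exacts [⟨_, k16 hk ht c⟩, ⟨_, k17 hk ht c⟩, ⟨_, k18 hk ht c⟩, ⟨_, k19 hk ht c⟩, ⟨_, k20 hk ht c⟩]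
  · rcases cov4 k b t (by omega) ht z hz with c | c | c | c | c | c | c
    exacts [⟨_, k21 hk ht c⟩, ⟨_, k22 hk ht c⟩, ⟨_, k23 hk ht c⟩, ⟨_, k24 hk ht c⟩, ⟨_, k25 hk ht c⟩, ⟨_, k26 hk ht c⟩, ⟨_, k27 hk ht c⟩]
  · rcases cov5 k b t (by omega) ht z hz with c | c | c | c | c
    exacts [⟨_, k28 hk ht c⟩, ⟨_, k29 hk ht c⟩, ⟨_, k30 hk ht c⟩, ⟨_, k31 hk ht c⟩, ⟨_, k32 hk ht c⟩]
  · rcases cov6 k b t (by omega) ht z hz with c | c | c | c | c
    exacts [⟨_, k33 hk ht c⟩, ⟨_, k34 hk ht c⟩, ⟨_, k35 hk ht c⟩, ⟨_, k36 hk ht c⟩, ⟨_, k37 hk ht c⟩]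

theorem ranks : r9 (get dat) 0 = 18 ∧ r9 (get dat) 1 = 34 ∧ r9 (get dat) 2 = 24 ∧ r9 (get dat) 3 = 22 ∧ r9 (get dat) 4 = 1 ∧ r9 (get dat) 5 = 1 := by
  decide +kernel

theorem okA (b j : ℕ) (hb : b < 6) (hj : j < r9 (get dat) b) : OkA (get dat) j b := by
  obtain ⟨r0, r1, r2, r3, r4, r5⟩ := ranks
  interval_cases b
  · exact (sChk _ _ _ _ _).2 _ a0 j (by omega) (by omega)
  · by_cases h : j < 17
    · exact (sChk _ _ _ _ _).2 _ a1 j (by omega) (by omega)
    · exact (sChk _ _ _ _ _).2 _ a2 j (by omega) (by omega)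
  · exact (sChk _ _ _ _ _).2 _ a3 j (by omega) (by omega)
  · exact (sChk _ _ _ _ _).2 _ a4 j (by omega) (by omega)
  · exact (sChk _ _ _ _ _).2 _ a5 j (by omega) (by omega)
  · exact (sChk _ _ _ _ _).2 _ a6 j (by omega) (by omega)

theorem okW : OkW (get dat) (((2000 : ℕ) : ℝ) / (8011 : ℕ)) :=
  okW_of _ _ _ (by norm_num) (by decide +kernel) (by decide +kernel)

def lA : List ℕ := [0, 17156279267, 11416589077, 8673389772, 7123431858, 6121350053, 5427415410, 4925079987, 4551000076, 4267650640, 4051429737, 3886809242, 3763223712, 3673308995, 3611852833, 3575146213, 3560567084]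
def lB : List ℕ := [0, 17156279332, 11416589163, 8673389866, 7123431987, 6121350198, 5427415614, 4925080219, 4551000405, 4267651017, 4051430278, 3886809866, 3763224612, 3673310038, 3611854344, 3575147970, 3560569642]
def lFL : List ℕ := [0, 549000936544, 91207300520, 49592832000, 34298632414, 25437620859, 20344844142, 17084080262, 14874538540, 13318277661, 12195609292, 11376656830, 10780565018, 10355023912, 10065252956, 9887776725, 9806713288]
def lFU : List ℕ := [0, 549000938624, 91207305350, 49592839659, 34298644321, 25437638141, 20344869490, 17084115895, 14874589279, 13318347714, 12195707377, 11376790807, 10780750459, 10355275299, 10065598081, 9888241998, 9807348302]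
def lU : List ℕ := [1099511627776, 549000938624, 365330855294, 277548481400, 227949834375, 195883224931, 173677328970, 157602612113, 145632079470, 136564929774, 129645907429, 124378112657, 120423462627, 117546305474, 115579868668, 114405466376, 113939227489, 104311001218, 95224851017, 87402619532, 80695358972, 74872836777, 69758024364, 65215589595, 61140493032, 57449454148, 54075093371, 50961828503, 48062936290, 45338396168, 42753268895, 40276446685, 37879664739, 35536697515, 33310254548, 31221370496, 29271458869]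

theorem ren : Ren lA lB lFL lFU lU (1908893 / 10000000) (6012359 / 10000000) (17447412 / 10000000) (2175116 / 10000000) := by
  decide +kernel

theorem vals : flg (get dat) 4 = 1 ∧ 0 < gI (get dat) (List.replicate 9 20) 5 (List.replicate 9 20) ∧
    2175116 * gI (get dat) (List.replicate 9 20) 5 (List.replicate 9 20) <
      4 * 10000000 * gI (get dat) (List.replicate 9 19) 4 (List.replicate 9 19) := by
  decide +kernel

noncomputable def x0 : ℝ≥0 := ⟨((2000 : ℕ) : ℝ) / (8011 : ℕ), by positivity⟩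

theorem strip (hF : FinH x0) {n lo a b d a' b' : ℕ} {t : X.BT} (h : X.chk n lo 2000 8011 t a b = true)
    (hn : 1 ≤ n ∧ lo ≤ 1 ∧ 2 * n - lo = d ∧ a' = a ∧ b' = b) :
    ENNReal.ofReal (a' / 2 ^ 36) ≤ B x0 d ∧ B x0 d ≤ ENNReal.ofReal (b' / 2 ^ 36) := by
  obtain ⟨h1, h2, rfl, rfl, rfl⟩ := hn
  exact sXf _ _ _ _ _ _ _ x0 h1 h2 (by norm_num) (by norm_num) rfl hF h

theorem strips (hF : FinH x0) (d : ℕ) (h1 : 1 ≤ d) (h2 : d ≤ 16) :
    ENNReal.ofReal ((lA.getD d 0 : ℕ) / 2 ^ 36) ≤ B x0 d ∧ B x0 d ≤ ENNReal.ofReal ((lB.getD d 0 : ℕ) / 2 ^ 36) := by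
  interval_cases d
  · exact strip hF X.c1 (by decide +kernel)
  · exact strip hF X.c2 (by decide +kernel)
  · exact strip hF X.c3 (by decide +kernel)
  · exact strip hF X.c4 (by decide +kernel)
  · exact strip hF X.c5 (by decide +kernel)
  · exact strip hF X.c6 (by decide +kernel)
  · exact strip hF X.c7 (by decide +kernel)
  · exact strip hF X.c8 (by decide +kernel)
  · exact strip hF X.c9 (by decide +kernel)
  · exact strip hF X.c10 (by decide +kernel)
  · exact strip hF X.c11 (by decide +kernel)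
  · exact strip hF X.c12 (by decide +kernel)
  · exact strip hF X.c13 (by decide +kernel)
  · exact strip hF X.c14 (by decide +kernel)
  · exact strip hF X.c15 (by decide +kernel)
  · exact strip hF X.c16 (by decide +kernel)

theorem aux (u v : ℤ) (h : 0 < v) (h' : 2175116 * v < 4 * 10000000 * u) :
    (0 : ℝ) < v ∧ (0 : ℝ) ≤ (u : ℝ) / v ∧ ((2175116 / 10000000 : ℚ) : ℝ) < 4 * ((u : ℝ) / v) := by
  have w2 : (0 : ℝ) < v := by exact_mod_cast h
  have w3 : (2175116 : ℝ) * v < 4 * 10000000 * u := by exact_mod_cast h'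
  refine ⟨w2, div_nonneg (by linarith) w2.le, ?_⟩
  rw [← mul_div_assoc, lt_div_iff₀ w2]
  push_cast
  linarith

theorem final : ∃ lam : ℝ, Filter.Tendsto (fun n : ℕ => (H45.t n : ℝ) ^ ((1 : ℝ) / n)) Filter.atTop (nhds lam) ∧
    1 ≤ lam * (2000 / 8011) := by
  obtain ⟨v1, v2, v3⟩ := vals
  obtain ⟨w, hs, hy⟩ := aux _ _ v2 v3
  have e : (x0 : ℝ) = 2000 / 8011 := by
    show ((2000 : ℕ) : ℝ) / (8011 : ℕ) = _
    norm_num
  have p : (0 : ℝ) < x0 := by rw [e]; norm_num
  have := lower_of x0 (by exact_mod_cast p) (by rw [← NNReal.coe_le_coe, e]; norm_num) _ _ _ hs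
    (a5T (get dat) x0 _ _ p w okW okA okK v1 le_rfl le_rfl)
    (fun hF => upper36 x0 hF _ _ _ _ _ _ _ _ _ (strips hF) ren) hy
  rwa [e] at this

end Pool.Agent.MP_6a06cd_co.KL.D
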