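import Pool.Agent.MP_6a06cd_co.KL.Spec
import Pool.Agent.MP_6a06cd_co.KM.Ck

/-! Integer meaning of the packed checker (`KL/Ck.lean`) and the statements of the work rows. -/

namespace Pool.Agent.MP_6a06cd_co.KL

open Finset K

/-! ### packing -/

def pk (W m : ℕ) (v : ℕ → ℤ) : ℤ := ∑ i ∈ range m, v i * 2 ^ (W * i)
def Rq (W m Y : ℕ) (v : ℕ → ℤ) : Prop := (Y : ℤ) ≡ pk W m v [ZMOD 2 ^ (W * m)]
def Rp (S n m Y : ℕ) (y : ℕ → ℕ → ℤ) : Prop := Rq (S * n) m Y fun i => pk S n (y i)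
def o1 (S n : ℕ) : ℤ := pk S n fun _ => 1
def en (b X i : ℕ) : ℤ := (pc b X i : ℤ) - 2 ^ (b - 1)
def oS (n : ℕ) (F : ℕ → ℤ) : ℤ := if n = 0 then 0 else F (n - 1)

def nx (s y k : ℕ) : ℕ := k + 64 * (s / 2 ^ 11 % 2 ^ 20) + 2 ^ 31 * (32 * (s / 2 ^ 31) + y)
def stS {α : Type} [AddCommMonoid α] (fin : Bool) (F : ℕ → α) (s : ℕ) : α :=
  ((mvs fin (s % 64) (s / 64 % 32)).map fun m => F (nx s m.1 m.2)).sum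
def swS {α : Type} [AddCommMonoid α] (F : ℕ → α) : ℕ → ℕ → α
  | 0 => F
  | i + 1 => stS false (swS F i)

/-- code of a word, head lowest -/
def cd : List ℕ → ℕ
  | [] => 0
  | a :: w => a + 32 * cd w
def sc (k : ℕ) (q p : List ℕ) : ℕ := k + 64 * cd q + 2 ^ 31 * cd p

/-! ### the integer recursions -/

section
variable (g : ℕ → ℕ)
def Pz (z t i : ℕ) : ℤ := en (bP g) (prow g z t) i
def Q1 (z y t s i : ℕ) : ℤ := en (b1 g) (q1 g z y t s) i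
def Q2 (y b t s i : ℕ) : ℤ := en (b2 g) (q2 g y b t s) i
def Mx (k i j : ℕ) : ℤ := (mx g k i j : ℤ) - 2 ^ eM g
def sB2 (m : ℕ → ℤ) (y b t i : ℕ) : ℤ := ∑ s ∈ range (r9 g b), Q2 g y b t s i * m s
def sB1 (m : ℕ → ℤ) (z y b t2 t1 i : ℕ) : ℤ := ∑ s ∈ range (r7 g y), Q1 g z y t1 s i * sB2 g m y b t2 s
def sT (m : ℕ → ℤ) (f : ℕ → ℕ) (c z y b t2 t1 t : ℕ) : ℤ :=
  ∑ i ∈ range (r4 g z), ((f (noc4 (il g z t)) : ℤ) * Pz g z t i) * ((c : ℤ) * sB1 g m z y b t2 t1 i)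
def sJ0 (j z i s : ℕ) : ℤ :=
  oS (kk g (s % 64)) fun k => oS (f2 g (bA (s / 2 ^ 31 % 32)) (s / 2 ^ 31 % 1024)) fun t2 =>
    oS (f1 g (zA (s / 2 ^ 36 % 32)) (s / 2 ^ 41)) fun t1 => (phJ g (noc5 (s / 2 ^ 31)) : ℤ) *
      sB1 g (fun r => Mx g k r j) z (zA (s / 2 ^ 36 % 32)) (bA (s / 2 ^ 31 % 32)) t2 t1 i
def sD (cs j b5 z k i u : ℕ) : ℤ :=
  (wJ g (noc5 (cl g cs b5 u)) : ℤ) * swS (sJ0 g j z i) 5 (k + 64 * cl g cs b5 u)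
def sI0 (cs j b5 u s : ℕ) : ℤ :=
  oS (fI g (zK (s % 64)) (s / 2 ^ 31)) fun t => (phI g (noc4 (s / 2 ^ 31)) : ℤ) *
    ∑ i ∈ range (r4 g (zK (s % 64))), sD g cs j b5 (zK (s % 64)) (s % 64) i u * Pz g (zK (s % 64)) t i
def sU0 (cs j b5 u s : ℕ) : ℤ :=
  oS (tK (s % 64)) fun k => (wI g (noc4 (s / 2 ^ 31)) : ℤ) * swS (sI0 g cs j b5 u) 4 (k + 64 * (s / 2 ^ 31))
def sX (cs j b5 k z t u : ℕ) : ℤ := swS (stS true (sU0 g cs j b5 u)) 3 (k + 64 * il g z t)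
def sV0 (cs j z t s : ℕ) : ℤ :=
  oS (fC g cs (bZ (zK (s % 64))) (s / 2 ^ 31)) fun p => sX g cs j (bZ (zK (s % 64))) (s % 64) z t p
def sV (cs j k z J t : ℕ) : ℤ := swS (sV0 g cs j z t) 5 (k + 64 * J)

def OkJ (m : ℕ → ℤ) (f h : ℕ → ℕ) (F : ℕ → ℕ → ℕ → ℤ) (b : ℕ) : Prop :=
  ∀ t2 t1 t y J z : ℕ, t2 < n2 g b → y = zA (j2 g b t2 / 32) → t1 < n1 g y → J = jw g y b t2 t1 →
    z = zA (J / 2 ^ 20) → t < nI g z → 0 ≤ F z J t + sT g m f (h (noc5 J)) z y b t2 t1 t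
def OkK (cs j k : ℕ) : Prop := OkJ g (fun s => - Mx g k j s) (psI g) (psJ g) (sV g cs j k) (bK k)
def dl (j s : ℕ) : ℤ := if s = j then 1 else 0
def OkA (j b : ℕ) : Prop := OkJ g (dl j) (fun _ => 1) (fun _ => 1) (fun _ _ _ => 0) b

/-- the vector of the word with code `c`, contracted with `m` -/
def lh (m : ℕ → ℤ) (c : ℕ) : ℤ :=
  oS (f2 g (bA (c % 32)) (c % 1024)) fun t2 => oS (f1 g (zA (c / 32 % 32)) (c / 1024 % 2 ^ 15)) fun t1 =>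
    oS (fI g (zA (c / 2 ^ 20 % 32)) (c / 2 ^ 25)) fun t =>
      sT g m (fun _ => 1) 1 (zA (c / 2 ^ 20 % 32)) (zA (c / 32 % 32)) (bA (c % 32)) t2 t1 t
def ph (c : ℕ) : ℤ := (phI g (noc4 (c / 2 ^ 25)) : ℤ) * phJ g (noc5 c)
def lm (m : ℕ → ℤ) (w : List ℕ) : ℤ := ph g (cd w) * lh g m (cd w)
def gI (a : List ℕ) (k : ℕ) (b : List ℕ) : ℤ :=
  ∑ j ∈ range (r9 g (bA (cd b % 32))), lm g (dl j) b * lm g (fun s => Mx g k s j) a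
noncomputable def gC (Ω : ℝ) (a : List ℕ) (k : ℕ) (b : List ℕ) : ℝ := if kk g k = 0 then 0 else gI g a k b / Ω

def OkW (x : ℝ) : Prop :=
  (∀ j, j ≤ 5 → (wJ g j : ℝ) ≤ 2 ^ 20 * x ^ j ∧ 2 ^ 20 * (phJ g j : ℝ) ≤ psJ g j * x ^ j) ∧
  ∀ j, j ≤ 4 → (wI g j : ℝ) ≤ 2 ^ 19 * x ^ j ∧ 2 ^ 19 * (phI g j : ℝ) ≤ psI g j * x ^ j
end

/-! ### rows: basic facts -/

def SBas : Prop :=
  (∀ e, pw e = 2 ^ e ∧ mk e = 2 ^ e - 1) ∧ (∀ W Y p, pc W Y p = Y / 2 ^ (W * p) % 2 ^ W) ∧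
  (∀ F W p t, px F W p t = pc W (F t) p) ∧
  (∀ n k, fN n k = k n) ∧ (∀ n k, opt n k = if n = 0 then 0 else k (n - 1)) ∧
  (∀ U r, sm U r = ∑ s ∈ range r, U s) ∧ (∀ U u r, kr U u r = ∑ s ∈ range r, U s * u s) ∧
  (∀ W m, 1 ≤ W → ones W m = ∑ i ∈ range m, 2 ^ (W * i)) ∧
  (∀ s, lo6 s = s % 64 ∧ hi s = s / 2 ^ 31) ∧ (∀ k q, st k q = k + 64 * q) ∧
  (∀ b L m c, fnd b L m c = 0 ∨ ∃ p, p < m ∧ fnd b L m c = p + 1 ∧ pc b L p = c) ∧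
  (∀ g k, kk g k = 0 ∨ (kk g k = k + 1 ∧ k ≠ 4 ∧ flg g k = 1)) ∧
  (∀ g k, k ≠ 4 → flg g k = 1 → kk g k = k + 1) ∧
  (∀ g y b t2 t1, jw g y b t2 t1 = j2 g b t2 + 1024 * j1 g y t1 ∧ j2 g b t2 < 1024 ∧ j1 g y t1 < 2 ^ 15)

def STb : Prop :=
  (∀ a, zA a = aZ a ∧ zA a < 16) ∧ (∀ a, a ≤ 20 → bA a = aB a) ∧ (∀ a, aB a < 6 → a ≤ 20) ∧
  (∀ z, z ≤ 6 → bZ z = rB z ∧ rB z < 6) ∧ (∀ k, k < 35 → zK k = kZ k ∧ bK k = kB k ∧ kZ k ≤ 6) ∧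
  (∀ k, tK k = if tn k < 35 then tn k + 1 else 0) ∧
  (∀ c, noc4 c ≤ 4 ∧ noc5 c ≤ 5 ∧ noc5 (c % 2 ^ 25) = noc5 c) ∧
  (∀ w : List ℕ, (∀ a ∈ w, a ≤ 20) → cd w < 32 ^ w.length ∧ (w.length = 4 → noc4 (cd w) = nocc w) ∧
    (w.length = 5 → noc5 (cd w) = nocc w)) ∧
  (∀ u v : List ℕ, cd (u ++ v) = cd u + 32 ^ u.length * cd v ∧ nocc (u ++ v) = nocc u + nocc v) ∧
  ∀ (w : List ℕ) (β : ℕ), Shape w β → (∀ a ∈ w, a ≤ 20) ∧ ∀ a ∈ w.head?, aB a = β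

def SRq : Prop :=
  (∀ W m Y Y' v v', Rq W m Y v → Rq W m Y' v' → Rq W m (Y + Y') fun i => v i + v' i) ∧
  (∀ W m c Y v, Rq W m Y v → Rq W m (c * Y) fun i => (c : ℤ) * v i) ∧
  (∀ W m, Rq W m 0 fun _ => 0) ∧
  (∀ W m Y v v', (∀ i, i < m → v i = v' i) → Rq W m Y v → Rq W m Y v') ∧
  (∀ W m Y v, Rq W m Y v → Rq W m (neg (W * m) Y) fun i => - v i) ∧
  (∀ (W m o r : ℕ) (U u : ℕ → ℕ) (A : ℕ → ℕ → ℤ) (v : ℕ → ℤ), (∀ s, s < r → Rq W m (U s) (A s)) →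
    (∀ s, s < r → (u s : ℤ) = v s + o) → Rq W m (krc (W * m) o U u r) fun i => ∑ s ∈ range r, A s i * v s) ∧
  (∀ S n e, 1 ≤ S → (bo S n e : ℤ) = 2 ^ e * o1 S n) ∧
  (∀ S n m e, 1 ≤ S → Rq (S * n) m (nbo S (n * m) e) fun _ => - (2 ^ e * o1 S n)) ∧
  (∀ S n m Y Y' y y', Rp S n m Y y → Rp S n m Y' y' → Rp S n m (Y + Y') fun i t => y i t + y' i t) ∧
  (∀ S n m c Y y, Rp S n m Y y → Rp S n m (c * Y) fun i t => (c : ℤ) * y i t) ∧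
  (∀ S n m, Rp S n m 0 fun _ _ => 0) ∧
  (∀ S n m Y y y', (∀ i t, i < m → t < n → y i t = y' i t) → Rp S n m Y y → Rp S n m Y y') ∧
  (∀ (S n r : ℕ) (a : ℕ → ℤ) (y : ℕ → ℕ → ℤ),
    ∑ s ∈ range r, a s * pk S n (y s) = pk S n fun t => ∑ s ∈ range r, a s * y s t)
def OfRq : Prop := SBas → SRq

def SDc : Prop :=
  (∀ S n m e Y y, Rp S n m Y y → (∀ i t, i < m → t < n → |y i t| ≤ 2 ^ e) → e + 2 ≤ S → ∀ i, i < m →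
    (pc (S * n) (dc S (n * m) e Y) i : ℤ) = pk S n (y i) + 2 ^ e * o1 S n) ∧
  (∀ S n m Y y, Rp S n m Y y → (∀ i t, i < m → t < n → |y i t| < 2 ^ (S - 1)) → 1 ≤ S →
    Nat.land Y (bo S (n * m) (S - 1)) = 0 → ∀ i t, i < m → t < n → 0 ≤ y i t) ∧
  ∀ W ρ D a b, b < ρ → pc W (pc (ρ * W) D a) b = pc W D (ρ * a + b)
def OfDc : Prop := SBas → SDc

def SSp : Prop := ∀ b W m x, 1 ≤ b → b * (m + 1) ≤ W → x < 2 ^ (b * m) → Rq W m (us b W m x) (en b x)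
def OfSp : Prop := SBas → SRq → SSp

def SCat : Prop := ∀ W f m, Rq W m (cat W f m) fun t => (f t : ℤ)

def SStp : Prop :=
  (∀ f s, stp T0 f s = stS false f s ∧ stp T1 f s = stS true f s) ∧ (∀ f i s, sw f i s = swS f i s) ∧
  (∀ (S n m : ℕ) (f : ℕ → ℕ) (F : ℕ → ℕ → ℕ → ℤ), (∀ s, Rp S n m (f s) fun i t => F i t s) →
    (∀ s, Rp S n m (stp T1 f s) fun i t => stS true (F i t) s) ∧
    ∀ l s, Rp S n m (sw f l s) fun i t => swS (F i t) l s)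
def OfStp : Prop := SBas → SRq → SStp

def SLin : Prop :=
  (∀ (F : ℕ → ℤ) (B : ℤ), 0 ≤ B → (∀ s, |F s| ≤ B) →
    (∀ fin s, |stS fin F s| ≤ 2 * B) ∧ ∀ l s, |swS F l s| ≤ 2 ^ l * B) ∧
  (∀ (ι : Type) (T : Finset ι) (L : ι → ℝ) (F : ι → ℕ → ℤ),
    (∀ fin s, stS fin (fun s => ∑ j ∈ T, L j * (F j s : ℝ)) s = ∑ j ∈ T, L j * ((stS fin (F j) s : ℤ) : ℝ)) ∧
    ∀ l s, swS (fun s => ∑ j ∈ T, L j * (F j s : ℝ)) l s = ∑ j ∈ T, L j * ((swS (F j) l s : ℤ) : ℝ)) ∧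
  (∀ g m c, lh g m c = ∑ s ∈ range (r9 g (bA (c % 32))), m s * lh g (dl s) c) ∧
  (∀ g a k b, gI g a k b =
    ∑ i ∈ range (r9 g (bA (cd a % 32))), lm g (dl i) a * lm g (fun s => Mx g k i s) b) ∧
  ∀ g m f c z y b t2 t1 t, sT g (fun s => - m s) f c z y b t2 t1 t =
    - ((f (noc4 (il g z t)) : ℤ) * c * sT g m (fun _ => 1) 1 z y b t2 t1 t)

def SBnd : Prop := ∀ g : ℕ → ℕ,
  (∀ k i j, |Mx g k i j| ≤ 2 ^ eM g) ∧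
  (∀ (m : ℕ → ℤ) (e : ℕ), (∀ s, |m s| ≤ 2 ^ e) → (∀ y b t i, |sB2 g m y b t i| ≤ 2 ^ e2 g e) ∧
    (∀ z y b t2 t1 i, |sB1 g m z y b t2 t1 i| ≤ 2 ^ e1 g e) ∧
    ∀ (f : ℕ → ℕ) (eI c eJ : ℕ), (∀ j, f j ≤ 2 ^ eI) → c ≤ 2 ^ eJ → ∀ z y b t2 t1 t,
      |sT g m f c z y b t2 t1 t| ≤ 2 ^ (e1 g e + eJ + eI + bP g + 4)) ∧
  (∀ cs j b5 z k i u, |sD g cs j b5 z k i u| ≤ 2 ^ e3 g) ∧
  (∀ cs j b5 k z t u, |sX g cs j b5 k z t u| ≤ 2 ^ e4 g) ∧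
  (∀ cs j k z J t, |sV g cs j k z J t| ≤ 2 ^ (e4 g + 5)) ∧
  (∃ M : ℤ, ∀ a k b, gI g a k b ≤ M) ∧
  (∀ j, psI g j ≤ 2 ^ 28 ∧ psJ g j ≤ 2 ^ 31 ∧ 1 ≤ psI g j ∧ 1 ≤ psJ g j ∧ 1 ≤ phI g j ∧ 1 ≤ phJ g j) ∧
  (∀ e, e + 6 ≤ e2 g e ∧ e2 g e + 6 ≤ e1 g e) ∧ e3 g = e1 g (eM g) + 35 ∧ e4 g = e3 g + bP g + 39 ∧
  1 ≤ bP g ∧ 1 ≤ b1 g ∧ 1 ≤ b2 g ∧ bM g = eM g + 1
def OfBnd : Prop := SBas → SLin → SBnd

/-! ### rows: the packed functions represent the integer recursions -/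

/-- the rows `u` pack the columns `m t`, `t < n`, with offset `2 ^ e` -/
def Rows (S n e : ℕ) (u : ℕ → ℕ) (m : ℕ → ℕ → ℤ) : Prop :=
  (∀ s, (u s : ℤ) = pk S n (fun t => m t s) + 2 ^ e * o1 S n) ∧ ∀ t s, |m t s| ≤ 2 ^ e

def SB12 : Prop := ∀ (g : ℕ → ℕ) (S n W : ℕ),
  (okW g S n W = true → W = S * n ∧ (∀ z, b1 g * (r4 g z + 1) ≤ W) ∧ ∀ y, y < 16 → b2 g * (r7 g y + 1) ≤ W) ∧
  (∀ c0 k, Rows S n (eM g) (mr g S n c0 k) fun t s => Mx g k s (c0 + t)) ∧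
  (∀ c0 k, Rows S n (eM g) (mt g S n c0 k) fun t s => - Mx g k (c0 + t) s) ∧
  (∀ c0, Rows S n 0 (mi S n c0) fun t => dl (c0 + t)) ∧
  ∀ u e m z y b t2 t1, okW g S n W = true → Rows S n e u m → e2 g e + 2 ≤ S → y < 16 →
    Rp S n (r4 g z) (fB1 g S n W u e z y b t2 t1) fun i t => sB1 g (m t) z y b t2 t1 i
def OfB12 : Prop := SBas → SRq → SDc → SSp → SBnd → SB12

def STg : Prop := ∀ (g : ℕ → ℕ) (S n W : ℕ) (u : ℕ → ℕ) (e : ℕ) (m : ℕ → ℕ → ℤ) (f : ℕ → ℕ)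
  (eJ c z y b t2 t1 : ℕ), okW g S n W = true → Rows S n e u m → e1 g e + eJ + 2 ≤ S → c ≤ 2 ^ eJ → y < 16 →
    Rp S n (nI g z) (tg g S n W u e f eJ c z y b t2 t1) fun t j => sT g (m j) f c z y b t2 t1 t
def OfTg : Prop := SBas → SRq → SDc → SCat → SBnd → SB12 → STg

def SJ : Prop := ∀ (g : ℕ → ℕ) (S n W c0 cs b5 z k i : ℕ), okW g S n W = true → e4 g + 7 ≤ S → i < r4 g z →
  Rp S n (nC g cs b5) (tN g S n W c0 cs b5 z k i) fun u t => sD g cs (c0 + t) b5 z k i u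
def OfJ : Prop := SBas → STb → SRq → SDc → SCat → SStp → SBnd → SB12 → SJ

def SI : Prop := ∀ (g : ℕ → ℕ) (S n W c0 cs b5 k z t u : ℕ), okW g S n W = true → e4 g + 7 ≤ S →
  u < nC g cs b5 → (pc W (dX g S n W c0 cs b5 k z t) u : ℤ) =
    pk S n (fun j => sX g cs (c0 + j) b5 k z t u) + 2 ^ e4 g * o1 S n
def OfI : Prop := SBas → SRq → SDc → SStp → SBnd → SB12 → SJ → SI

def SV : Prop := ∀ (g : ℕ → ℕ) (S n W c0 cs k z J : ℕ), okW g S n W = true → e4 g + 7 ≤ S →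
  Rp S n (nI g z) (fV g S n W c0 cs k z J) fun t j => sV g cs (c0 + j) k z J t
def OfV : Prop := SBas → SRq → SDc → SCat → SStp → SB12 → SI → SV

def SChk : Prop := ∀ (g : ℕ → ℕ) (S n W c0 : ℕ),
  (∀ cs msk, chkR g S n W c0 cs msk = true → ∀ k j, k < 35 → pc 1 msk k = 1 → c0 ≤ j → j < c0 + n →
    OkK g cs j k) ∧
  ∀ b, chkA g S n W c0 b = true → ∀ j, c0 ≤ j → j < c0 + n → OkA g j b
def OfChk : Prop := SBas → STb → SRq → SDc → SBnd → SB12 → STg → SV → SChk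

/-! ### rows: the integer inequalities give the certificate -/

def Cl (z : ℕ) (p : List ℕ) (k : ℕ) : Prop :=
  k < 35 ∧ (∀ a ∈ p, a ≤ 20) ∧ (p = [] → kZ k = z) ∧ ∀ a ∈ p.getLast?, aZ a = z

def SSw : Prop := ∀ (x : ℝ) (Bd : ℕ → List ℕ → ℕ → List ℕ → ℝ → ℝ → Prop), Rules x Bd →
  ∀ (F : ℕ → ℝ) (z i : ℕ) (A B : List ℕ) (κ : ℝ), 0 ≤ κ →
  (∀ c q p k, i < 18 → q.length ≤ 4 → Cl z p k →
    (∀ y k', Cl z (y :: p) k' → Bd i (y :: p ++ A) k' (q ++ B) κ (F (sc k' q (y :: p)))) →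
    Bd (i + 1) (p ++ A) k (c :: q ++ B) κ (stS (decide (q ++ B = [])) F (sc k (c :: q) p))) ∧
  ∀ (m : ℕ) (q0 : List ℕ), q0 ++ B ≠ [] → m + q0.length ≤ 5 → i + m ≤ 18 →
    (∀ p k, p.length = m → Cl z p k → Bd i (p ++ A) k (q0 ++ B) κ (F (sc k q0 p))) →
    ∀ q p k, p.length + q.length = m → Cl z p k →
      Bd (i + q.length) (p ++ A) k (q ++ q0 ++ B) κ (swS F q.length (sc k (q ++ q0) p))
def OfSw : Prop := STab → STb → SSw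

/-- the values at the end slice, for the fixed word `a` -/
def HB (g : ℕ → ℕ) (x : ℝ) (Bd : ℕ → List ℕ → ℕ → List ℕ → ℝ → ℝ → Prop) (a : List ℕ) (r : ℕ) (L : ℕ → ℝ) : Prop :=
  ∀ p k, p.length = 9 → k < 35 → Bd 0 p k a (x ^ nocc a)
    (∑ j ∈ range r, L j * ((oS (kk g k) fun k => lm g (fun s => Mx g k s j) p : ℤ) : ℝ))
def H1 (g : ℕ → ℕ) (x : ℝ) (Bd : ℕ → List ℕ → ℕ → List ℕ → ℝ → ℝ → Prop) (a : List ℕ) (r : ℕ) (L : ℕ → ℝ) : Prop :=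
  ∀ cs b5 u c I k, c.length = 5 → (∀ y ∈ c, y ≤ 20) → cd c = cl g cs b5 u → I.length = 4 → (∀ y ∈ I, y ≤ 20) →
    k < 35 → Bd 5 I k (c ++ a) (x ^ nocc (c ++ a))
      (∑ j ∈ range r, L j / 2 ^ 20 * ((sI0 g cs j b5 u (sc k [] I) : ℤ) : ℝ))
def H2 (g : ℕ → ℕ) (Bd : ℕ → List ℕ → ℕ → List ℕ → ℝ → ℝ → Prop) (a : List ℕ) (r : ℕ) (L : ℕ → ℝ) : Prop :=
  ∀ cs b5 u c I k z t, c.length = 5 → (∀ y ∈ c, y ≤ 20) → cd c = cl g cs b5 u → I.length = 4 →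
    cd I = il g z t → k < 35 →
    Bd 13 (c ++ a) k I 1 (∑ j ∈ range r, L j / 2 ^ 39 * ((sX g cs j b5 k z t u : ℤ) : ℝ))
def H3 (g : ℕ → ℕ) (Bd : ℕ → List ℕ → ℕ → List ℕ → ℝ → ℝ → Prop) (a : List ℕ) (r : ℕ) (L : ℕ → ℝ) : Prop :=
  ∀ cs J I k z t, J.length = 5 → I.length = 4 → cd I = il g z t → k < 35 →
    Bd 18 a k (J ++ I) 1 (∑ j ∈ range r, L j / 2 ^ 39 * ((sV g cs j k z (cd J) t : ℤ) : ℝ))

def SA1 : Prop := ∀ g x Bd a r L, 0 < x → Rules x Bd → OkW g x → a ≠ [] → HB g x Bd a r L → H1 g x Bd a r L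
def OfA1 : Prop := SBas → STb → SLin → SSw → SA1
def SA2 : Prop := ∀ g x Bd a r L, 0 < x → Rules x Bd → OkW g x → H1 g x Bd a r L → H2 g Bd a r L
def OfA2 : Prop := SBas → STb → SLin → SSw → SA2
def SA3 : Prop := ∀ g x Bd a r L, Rules x Bd → H2 g Bd a r L → H3 g Bd a r L
def OfA3 : Prop := SBas → STb → SLin → SSw → SA3

/-- one state of the start slice -/
def SA4 : Prop := ∀ (g : ℕ → ℕ) (x Ω : ℝ) Bd a k b cs, 0 < x → 0 < Ω → Rules x Bd → OkW g x → a.length = 9 →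
  (∀ b j, b < 6 → j < r9 g b → OkA g j b) → (∀ j, j < r9 g (rB (kZ k)) → OkK g cs j k) →
  H3 g Bd a (r9 g (bA (cd a % 32))) (fun j => (lm g (dl j) a : ℝ) / Ω) →
  Bd 18 a k b (x ^ nocc b) (gI g a k b / Ω)
def OfA4 : Prop := SBas → STb → SLin → SBnd → SA4

def SA5 : Prop := ∀ (g : ℕ → ℕ) (x Ω s : ℝ), 0 < x → 0 < Ω → OkW g x →
  (∀ b j, b < 6 → j < r9 g b → OkA g j b) →
  (∀ k, k < 35 → flg g k = 1 → ∃ cs, ∀ j, j < r9 g (rB (kZ k)) → OkK g cs j k) → flg g 4 = 1 →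
  (gI g (List.replicate 9 20) 5 (List.replicate 9 20) : ℝ) ≤ Ω →
  s ≤ gI g (List.replicate 9 19) 4 (List.replicate 9 19) / Ω → Cert x (gC g Ω) s
def OfA5 : Prop := SBas → STb → SBnd → SA1 → SA2 → SA3 → SA4 → SA5

end Pool.Agent.MP_6a06cd_co.KL
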