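import Pool.Agent.MP_6a06cd_co.KM.XT

namespace Pool.Agent.MP_6a06cd_co.KL.X

theorem p0 : chkP (nat_lit 8) (nat_lit 0) (nat_lit 2000) (nat_lit 8011) t16 0 = true := by decide +kernel

end Pool.Agent.MP_6a06cd_co.KL.X
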